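import Mathlib

open MeasureTheory Filter Topology Manifold Metric
open scoped ContDiff RealInnerProductSpace

namespace Pool.Agent.U873.EntExp

abbrev R3 := EuclideanSpace ℝ (Fin 3)
abbrev S2 := sphere (0 : R3) 1

/-- The quadratic vector field `X(x,y,z) = (-xz, yz, x^2-y^2)`. -/
noncomputable def X (v : R3) : R3 := !₂[-(v 0 * v 2), v 1 * v 2, v 0 ^ 2 - v 1 ^ 2]

noncomputable def nX (v : R3) : ℝ := (v 0 * v 2) ^ 2 + (v 1 * v 2) ^ 2 + (v 0 ^ 2 - v 1 ^ 2) ^ 2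

noncomputable def G (v : R3) : R3 := v + (1 / 10 : ℝ) • X v

noncomputable def s (v : R3) : ℝ := √(1 + (1 / 100) * nX v)

noncomputable def F (v : R3) : R3 := (s v)⁻¹ • G v

@[simp] lemma X0 (v : R3) : X v 0 = -(v 0 * v 2) := rfl
@[simp] lemma X1 (v : R3) : X v 1 = v 1 * v 2 := rfl
@[simp] lemma X2 (v : R3) : X v 2 = v 0 ^ 2 - v 1 ^ 2 := rfl

@[simp] lemma G0 (v : R3) : G v 0 = v 0 - (1 / 10) * (v 0 * v 2) := by
  simp [G]; ring
@[simp] lemma G1 (v : R3) : G v 1 = v 1 + (1 / 10) * (v 1 * v 2) := by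
  simp [G]
@[simp] lemma G2 (v : R3) : G v 2 = v 2 + (1 / 10) * (v 0 ^ 2 - v 1 ^ 2) := by
  simp [G]

lemma normsq (v : R3) : ‖v‖ ^ 2 = v 0 ^ 2 + v 1 ^ 2 + v 2 ^ 2 := by
  rw [EuclideanSpace.norm_sq_eq]
  simp [Fin.sum_univ_three]

lemma nX_nonneg (v : R3) : 0 ≤ nX v := by unfold nX; positivity

lemma s_sq (v : R3) : s v ^ 2 = 1 + (1 / 100) * nX v := by
  unfold s
  rw [Real.sq_sqrt]
  have := nX_nonneg v
  positivity

lemma one_le_s (v : R3) : 1 ≤ s v := by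
  unfold s
  rw [Real.one_le_sqrt]
  have := nX_nonneg v
  linarith

lemma s_pos (v : R3) : 0 < s v := lt_of_lt_of_le one_pos (one_le_s v)

lemma normsq_G (v : R3) : ‖G v‖ ^ 2 = ‖v‖ ^ 2 + (1 / 100) * nX v := by
  rw [normsq, normsq]
  simp [nX]
  ring

lemma normsq_F (v : R3) : ‖F v‖ ^ 2 = 1 + (‖v‖ ^ 2 - 1) / s v ^ 2 := by
  unfold F
  rw [norm_smul, mul_pow, normsq_G]
  have h := s_sq v
  have hs := s_pos v
  rw [norm_inv, Real.norm_of_nonneg hs.le]
  field_simp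
  rw [h]; ring

lemma norm_F_eq_one_iff (v : R3) : ‖F v‖ = 1 ↔ ‖v‖ = 1 := by
  have h := normsq_F v
  have hs := s_pos v
  constructor
  · intro h1
    rw [h1] at h
    have h2 : (‖v‖ ^ 2 - 1) / s v ^ 2 = 0 := by linarith
    have h3 : ‖v‖ ^ 2 - 1 = 0 := by
      rcases div_eq_zero_iff.1 h2 with h4 | h4
      · exact h4
      · exact absurd h4 (by positivity)
    have h5 : ‖v‖ ^ 2 = 1 ^ 2 := by linarith
    exact (pow_left_inj₀ (norm_nonneg _) zero_le_one two_ne_zero).1 h5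
  · intro h1
    rw [h1] at h
    have h5 : ‖F v‖ ^ 2 = 1 ^ 2 := by rw [h]; simp
    exact (pow_left_inj₀ (norm_nonneg _) zero_le_one two_ne_zero).1 h5

/-! ### injectivity on the sphere -/

lemma inner3 (v w : R3) : ⟪v, w⟫ = v 0 * w 0 + v 1 * w 1 + v 2 * w 2 := by
  simp [PiLp.inner_apply, Fin.sum_univ_three]
  ring

lemma inner_X_self (v : R3) : ⟪X v, v⟫ = 0 := by
  rw [inner3]; simp; ring

lemma normsq_X (v : R3) : ‖X v‖ ^ 2 = nX v := by
  rw [normsq]; simp [nX]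

lemma nX_le (v : R3) (hv : ‖v‖ = 1) : nX v ≤ 1 := by
  have h := normsq v
  rw [hv] at h
  have hz : v 2 ^ 2 = 1 - v 0 ^ 2 - v 1 ^ 2 := by linarith
  unfold nX
  have h1 : (v 0 * v 2) ^ 2 + (v 1 * v 2) ^ 2 + (v 0 ^ 2 - v 1 ^ 2) ^ 2
      = (v 0 ^ 2 + v 1 ^ 2) * v 2 ^ 2 + (v 0 ^ 2 - v 1 ^ 2) ^ 2 := by ring
  rw [h1, hz]
  have h0 := sq_nonneg (v 0)
  have h2 := sq_nonneg (v 1)
  have h3 := sq_nonneg (v 2)
  nlinarith [mul_nonneg h0 h2]

lemma norm_X_le (v : R3) (hv : ‖v‖ = 1) : ‖X v‖ ≤ 1 := by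
  have h := normsq_X v
  have h2 := nX_le v hv
  have : ‖X v‖ ^ 2 ≤ 1 ^ 2 := by linarith
  exact (pow_le_pow_iff_left₀ (norm_nonneg _) zero_le_one two_ne_zero).1 this

lemma cs2 (a b c d : ℝ) : (a * b + c * d) ^ 2 ≤ (a ^ 2 + c ^ 2) * (b ^ 2 + d ^ 2) := by
  nlinarith [sq_nonneg (a * d - b * c)]

lemma normsq_X_sub_le (v w : R3) (hv : ‖v‖ = 1) (hw : ‖w‖ = 1) :
    ‖X v - X w‖ ^ 2 ≤ 6 * ‖v - w‖ ^ 2 := by
  have h1 := normsq v
  have h2 := normsq w
  rw [hv] at h1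
  rw [hw] at h2
  rw [normsq, normsq]
  simp only [PiLp.sub_apply, X0, X1, X2]
  set a := v 0 - w 0 with ha
  set b := v 1 - w 1 with hb
  set c := v 2 - w 2 with hc
  set p := (v 0 + w 0) / 2 with hp
  set q := (v 1 + w 1) / 2 with hq
  set r := (v 2 + w 2) / 2 with hr
  have e0 : -(v 0 * v 2) - -(w 0 * w 2) = -(a * r + c * p) := by
    rw [ha, hc, hp, hr]; ring
  have e1 : v 1 * v 2 - w 1 * w 2 = b * r + c * q := by
    rw [hb, hc, hq, hr]; ring
  have e2 : v 0 ^ 2 - v 1 ^ 2 - (w 0 ^ 2 - w 1 ^ 2) = 2 * (a * p + b * (-q)) := by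
    rw [ha, hb, hp, hq]; ring
  rw [e0, e1, e2]
  have hm : p ^ 2 + q ^ 2 + r ^ 2 ≤ 1 := by
    rw [hp, hq, hr]
    nlinarith [sq_nonneg (v 0 - w 0), sq_nonneg (v 1 - w 1), sq_nonneg (v 2 - w 2)]
  have c1 := cs2 a r c p
  have c2 := cs2 b r c q
  have c3 := cs2 a p b (-q)
  have k1 : (a ^ 2 + c ^ 2) * (r ^ 2 + p ^ 2) ≤ (a ^ 2 + b ^ 2 + c ^ 2) * 1 := by
    apply mul_le_mul _ _ (by positivity) (by positivity)
    · linarith [sq_nonneg a, sq_nonneg b, sq_nonneg c]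
    · linarith [sq_nonneg p, sq_nonneg q, sq_nonneg r]
  have k2 : (b ^ 2 + c ^ 2) * (r ^ 2 + q ^ 2) ≤ (a ^ 2 + b ^ 2 + c ^ 2) * 1 := by
    apply mul_le_mul _ _ (by positivity) (by positivity)
    · linarith [sq_nonneg a, sq_nonneg b, sq_nonneg c]
    · linarith [sq_nonneg p, sq_nonneg q, sq_nonneg r]
  have k3 : (a ^ 2 + b ^ 2) * (p ^ 2 + (-q) ^ 2) ≤ (a ^ 2 + b ^ 2 + c ^ 2) * 1 := by
    rw [neg_sq]
    apply mul_le_mul _ _ (by positivity) (by positivity)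
    · linarith [sq_nonneg a, sq_nonneg b, sq_nonneg c]
    · linarith [sq_nonneg p, sq_nonneg q, sq_nonneg r]
  have j1 := c1.trans k1
  have j2 := c2.trans k2
  have j3 := c3.trans k3
  have e3 : (-(a * r + c * p)) ^ 2 = (a * r + c * p) ^ 2 := by ring
  have e4 : (2 * (a * p + b * (-q))) ^ 2 = 4 * (a * p + b * (-q)) ^ 2 := by ring
  rw [e3, e4]
  linarith

lemma F_injOn (v w : R3) (hv : ‖v‖ = 1) (hw : ‖w‖ = 1) (h : F v = F w) : v = w := by
  -- `G v = l • G w`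
  have hsv := s_pos v
  have hsw := s_pos w
  set l : ℝ := s v / s w with hl
  have hl0 : 0 < l := by positivity
  have hG : G v = l • G w := by
    have h1 : s v • F v = G v := by
      unfold F; rw [smul_smul, mul_inv_cancel₀ hsv.ne', one_smul]
    rw [← h1, h]
    unfold F
    rw [smul_smul, hl, div_eq_mul_inv]
  set c : ℝ := ⟪v, w⟫ with hc
  set P : ℝ := ⟪X v, w⟫ with hP
  set Q : ℝ := ⟪X w, v⟫ with hQ
  have e1 : ⟪G v, v⟫ = 1 := by
    unfold G
    rw [inner_add_left, real_inner_smul_left, inner_X_self, real_inner_self_eq_norm_sq, hv]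
    norm_num
  have e2 : ⟪G w, w⟫ = 1 := by
    unfold G
    rw [inner_add_left, real_inner_smul_left, inner_X_self, real_inner_self_eq_norm_sq, hw]
    norm_num
  have e3 : ⟪G v, w⟫ = c + (1 / 10) * P := by
    unfold G
    rw [inner_add_left, real_inner_smul_left]
  have e4 : ⟪G w, v⟫ = c + (1 / 10) * Q := by
    unfold G
    rw [inner_add_left, real_inner_smul_left, real_inner_comm]
  have f1 : 1 = l * (c + (1 / 10) * Q) := by
    rw [← e4, ← real_inner_smul_left, ← hG, e1]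
  have f2 : c + (1 / 10) * P = l := by
    rw [← e3, hG, real_inner_smul_left, e2, mul_one]
  -- norms
  have hd : ‖v - w‖ ^ 2 = 2 * (1 - c) := by
    rw [norm_sub_sq_real, hv, hw]; ring
  have hPd : P = -⟪X v, v - w⟫ := by
    rw [inner_sub_right, inner_X_self]; ring
  have hQd : Q = ⟪X w, v - w⟫ := by
    rw [inner_sub_right, inner_X_self]; ring
  have hPa : |P| ≤ ‖v - w‖ := by
    rw [hPd, abs_neg]
    refine (abs_real_inner_le_norm _ _).trans ?_
    have := norm_X_le v hv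
    have h0 := norm_nonneg (v - w)
    nlinarith
  have hQa : |Q| ≤ ‖v - w‖ := by
    rw [hQd]
    refine (abs_real_inner_le_norm _ _).trans ?_
    have := norm_X_le w hw
    have h0 := norm_nonneg (v - w)
    nlinarith
  have hPQ : |P + Q| ≤ (5 / 2) * ‖v - w‖ ^ 2 := by
    have : P + Q = -⟪X v - X w, v - w⟫ := by
      rw [hPd, hQd, inner_sub_left]; ring
    rw [this, abs_neg]
    refine (abs_real_inner_le_norm _ _).trans ?_
    have h1 := normsq_X_sub_le v w hv hw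
    have h2 : ‖X v - X w‖ ≤ (5 / 2) * ‖v - w‖ := by
      have h0 := norm_nonneg (v - w)
      have : ‖X v - X w‖ ^ 2 ≤ ((5 / 2) * ‖v - w‖) ^ 2 := by
        nlinarith [sq_nonneg (‖v - w‖)]
      exact (pow_le_pow_iff_left₀ (norm_nonneg _) (by positivity) two_ne_zero).1 this
    have h0 := norm_nonneg (v - w)
    nlinarith
  have hc1 : |c| ≤ 1 := by
    have := abs_real_inner_le_norm v w
    rw [hv, hw, one_mul] at this
    exact this
  have hc1' := abs_le.1 hc1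
  have hP' := abs_le.1 hPa
  have hQ' := abs_le.1 hQa
  have hn2 : ‖v - w‖ ≤ 2 := by
    have : ‖v - w‖ ^ 2 ≤ 2 ^ 2 := by rw [hd]; linarith
    exact (pow_le_pow_iff_left₀ (norm_nonneg _) (by positivity) two_ne_zero).1 this
  -- main identity
  have main : 1 - c ^ 2 = (1 / 10) * (c * (P + Q)) + (1 / 100) * (P * Q) := by
    have : 1 = (c + (1 / 10) * P) * (c + (1 / 10) * Q) := by rw [f2]; exact f1
    linarith
  have b1 : c * (P + Q) ≤ (5 / 2) * ‖v - w‖ ^ 2 := by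
    calc c * (P + Q) ≤ |c * (P + Q)| := le_abs_self _
      _ = |c| * |P + Q| := abs_mul _ _
      _ ≤ 1 * ((5 / 2) * ‖v - w‖ ^ 2) := by
        apply mul_le_mul hc1 hPQ (abs_nonneg _) zero_le_one
      _ = _ := one_mul _
  have b2 : P * Q ≤ ‖v - w‖ ^ 2 := by
    calc P * Q ≤ |P * Q| := le_abs_self _
      _ = |P| * |Q| := abs_mul _ _
      _ ≤ ‖v - w‖ * ‖v - w‖ := by
        apply mul_le_mul hPa hQa (abs_nonneg _) (norm_nonneg _)
      _ = _ := by ring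
  have b3 : (1 - c) * (1 + c) ≤ (26 / 100) * (2 * (1 - c)) := by
    rw [hd] at b1 b2
    have e5 : (1 - c) * (1 + c) = 1 - c ^ 2 := by ring
    rw [e5, main]
    linarith
  have b4 : -(1 / 5) < c := by linarith
  have hc2 : c = 1 := by
    by_contra hne
    have hlt : 0 < 1 - c := by
      rcases lt_or_eq_of_le hc1'.2 with h5 | h5
      · linarith
      · exact absurd h5 hne
    have : 1 + c ≤ 52 / 100 := by
      by_contra hcon
      push Not at hcon
      nlinarith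
    linarith
  have : ‖v - w‖ ^ 2 = 0 := by rw [hd, hc2]; ring
  have h0 : ‖v - w‖ = 0 := by simpa using this
  exact sub_eq_zero.1 (norm_eq_zero.1 h0)

end Pool.Agent.U873.EntExp
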