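import Pool.Agent.U873.EntA

open MeasureTheory Filter Topology Manifold Metric
open scoped ContDiff RealInnerProductSpace

namespace Pool.Agent.U873.EntExp

/-! ### smoothness of `F` and its derivative -/

lemma contDiff_coord (n : WithTop ℕ∞) (i : Fin 3) : ContDiff ℝ n (fun v : R3 => v i) :=
  contDiff_euclidean.1 contDiff_id i

lemma contDiff_X (n : WithTop ℕ∞) : ContDiff ℝ n X := by
  rw [contDiff_euclidean]
  have h0 := contDiff_coord n 0
  have h1 := contDiff_coord n 1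
  have h2 := contDiff_coord n 2
  intro i
  fin_cases i
  · exact (h0.mul h2).neg
  · exact h1.mul h2
  · exact (h0.pow 2).sub (h1.pow 2)

lemma contDiff_nX (n : WithTop ℕ∞) : ContDiff ℝ n nX := by
  have h0 := contDiff_coord n 0
  have h1 := contDiff_coord n 1
  have h2 := contDiff_coord n 2
  exact (((h0.mul h2).pow 2).add ((h1.mul h2).pow 2)).add (((h0.pow 2).sub (h1.pow 2)).pow 2)

lemma contDiff_s (n : WithTop ℕ∞) : ContDiff ℝ n s := by
  have h := contDiff_nX n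
  have h2 : ContDiff ℝ n (fun v : R3 => 1 + (1 / 100 : ℝ) * nX v) :=
    contDiff_const.add (contDiff_const.mul h)
  refine h2.sqrt ?_
  intro v
  have := nX_nonneg v
  positivity

lemma contDiff_G (n : WithTop ℕ∞) : ContDiff ℝ n G :=
  contDiff_id.add ((contDiff_X n).const_smul (1 / 10 : ℝ))

lemma contDiff_F (n : WithTop ℕ∞) : ContDiff ℝ n F :=
  ((contDiff_s n).inv (fun v => (s_pos v).ne')).smul (contDiff_G n)

/-- derivative of `G` at `v` in direction `h` -/
noncomputable def Gd (v h : R3) : R3 :=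
  !₂[h 0 - (1 / 10) * (h 0 * v 2 + v 0 * h 2), h 1 + (1 / 10) * (h 1 * v 2 + v 1 * h 2),
    h 2 + (1 / 10) * (2 * v 0 * h 0 - 2 * v 1 * h 1)]

@[simp] lemma Gd0 (v h : R3) : Gd v h 0 = h 0 - (1 / 10) * (h 0 * v 2 + v 0 * h 2) := rfl
@[simp] lemma Gd1 (v h : R3) : Gd v h 1 = h 1 + (1 / 10) * (h 1 * v 2 + v 1 * h 2) := rfl
@[simp] lemma Gd2 (v h : R3) :
    Gd v h 2 = h 2 + (1 / 10) * (2 * v 0 * h 0 - 2 * v 1 * h 1) := rfl

noncomputable def nXd (v h : R3) : ℝ :=
  2 * (v 0 * v 2) * (h 0 * v 2 + v 0 * h 2) + 2 * (v 1 * v 2) * (h 1 * v 2 + v 1 * h 2)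
    + 2 * (v 0 ^ 2 - v 1 ^ 2) * (2 * v 0 * h 0 - 2 * v 1 * h 1)

lemma hasDerivAt_coord (v h : R3) (i : Fin 3) :
    HasDerivAt (fun t : ℝ => (v + t • h) i) (h i) 0 := by
  have : (fun t : ℝ => (v + t • h) i) = fun t : ℝ => v i + t * h i := by
    funext t; simp
  rw [this]
  simpa using ((hasDerivAt_id (0 : ℝ)).mul_const (h i)).const_add (v i)

lemma hasDerivAt_nX (v h : R3) :
    HasDerivAt (fun t : ℝ => nX (v + t • h)) (nXd v h) 0 := by
  have h0 := hasDerivAt_coord v h 0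
  have h1 := hasDerivAt_coord v h 1
  have h2 := hasDerivAt_coord v h 2
  have := (((h0.mul h2).pow 2).add ((h1.mul h2).pow 2)).add (((h0.pow 2).sub (h1.pow 2)).pow 2)
  refine this.congr_deriv ?_
  simp [nXd]

lemma hasDerivAt_s (v h : R3) :
    HasDerivAt (fun t : ℝ => s (v + t • h)) (nXd v h / (200 * s v)) 0 := by
  have h1 := hasDerivAt_nX v h
  have h2 := (h1.const_mul (1 / 100)).const_add 1
  have hne : (1 + (1 / 100) * nX (v + (0 : ℝ) • h)) ≠ 0 := by
    have := nX_nonneg (v + (0 : ℝ) • h)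
    positivity
  have h3 := h2.sqrt hne
  refine h3.congr_deriv ?_
  have : √(1 + (1 / 100) * nX (v + (0 : ℝ) • h)) = s v := by
    simp [s]
  rw [this]
  have := s_pos v
  field_simp
  ring

lemma hasDerivAt_G (v h : R3) (i : Fin 3) :
    HasDerivAt (fun t : ℝ => G (v + t • h) i) (Gd v h i) 0 := by
  have h0 := hasDerivAt_coord v h 0
  have h1 := hasDerivAt_coord v h 1
  have h2 := hasDerivAt_coord v h 2
  fin_cases i
  · have := h0.sub ((h0.mul h2).const_mul (1 / 10))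
    have e : (fun t : ℝ => G (v + t • h) 0)
        = fun t : ℝ => (v + t • h) 0 - (1 / 10) * ((v + t • h) 0 * (v + t • h) 2) := by
      funext t; rw [G0]
    show HasDerivAt (fun t : ℝ => G (v + t • h) 0) (Gd v h 0) 0
    rw [e]
    refine this.congr_deriv ?_
    simp
  · have := h1.add ((h1.mul h2).const_mul (1 / 10))
    have e : (fun t : ℝ => G (v + t • h) 1)
        = fun t : ℝ => (v + t • h) 1 + (1 / 10) * ((v + t • h) 1 * (v + t • h) 2) := by
      funext t; rw [G1]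
    show HasDerivAt (fun t : ℝ => G (v + t • h) 1) (Gd v h 1) 0
    rw [e]
    refine this.congr_deriv ?_
    simp
  · have := h2.add (((h0.pow 2).sub (h1.pow 2)).const_mul (1 / 10))
    have e : (fun t : ℝ => G (v + t • h) 2)
        = fun t : ℝ => (v + t • h) 2 + (1 / 10) * ((v + t • h) 0 ^ 2 - (v + t • h) 1 ^ 2) := by
      funext t; rw [G2]
    show HasDerivAt (fun t : ℝ => G (v + t • h) 2) (Gd v h 2) 0
    rw [e]
    refine this.congr_deriv ?_
    simp

lemma differentiableAt_F (v : R3) : DifferentiableAt ℝ F v :=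
  ((contDiff_F 1).differentiable one_ne_zero).differentiableAt

lemma fderiv_F_apply (v h : R3) :
    fderiv ℝ F v h = (s v)⁻¹ • Gd v h - (nXd v h / (200 * s v) / s v ^ 2) • G v := by
  have hF : HasFDerivAt F (fderiv ℝ F v) v := (differentiableAt_F v).hasFDerivAt
  have hline : HasDerivAt (fun t : ℝ => v + t • h) h 0 := by
    simpa using ((hasDerivAt_id (0 : ℝ)).smul_const h).const_add v
  have hF' : HasFDerivAt F (fderiv ℝ F v) (v + (0 : ℝ) • h) := by simpa using hF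
  have h1 : HasDerivAt (F ∘ fun t : ℝ => v + t • h) (fderiv ℝ F v h) 0 :=
    HasFDerivAt.comp_hasDerivAt (0 : ℝ) hF' hline
  ext i
  have h2 : HasDerivAt (fun t : ℝ => F (v + t • h) i) (fderiv ℝ F v h i) 0 := by
    have := (EuclideanSpace.proj (𝕜 := ℝ) i : R3 →L[ℝ] ℝ).hasFDerivAt.comp_hasDerivAt
      (0 : ℝ) h1
    exact this
  have hs0 : s (v + (0 : ℝ) • h) ≠ 0 := (s_pos _).ne'
  have h3 := ((hasDerivAt_s v h).inv hs0).mul (hasDerivAt_G v h i)
  have e : (fun t : ℝ => F (v + t • h) i)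
      = fun t : ℝ => (s (v + t • h))⁻¹ * G (v + t • h) i := by
    funext t; simp [F]
  rw [e] at h2
  have h4 := h2.unique h3
  rw [h4]
  simp only [PiLp.sub_apply, PiLp.smul_apply, smul_eq_mul, zero_smul, add_zero, Pi.inv_apply]
  ring

lemma fderiv_F_injective (v : R3) (hv : ‖v‖ = 1) (h : R3) (hh : fderiv ℝ F v h = 0) :
    h = 0 := by
  rw [fderiv_F_apply] at hh
  have hs := s_pos v
  have hs2 := s_sq v
  obtain ⟨m, hm⟩ : ∃ m : ℝ, m = nXd v h / (200 * s v ^ 2) := ⟨_, rfl⟩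
  have hGd : Gd v h = m • G v := by
    have h1 : (s v)⁻¹ • Gd v h = (nXd v h / (200 * s v) / s v ^ 2) • G v := sub_eq_zero.1 hh
    have h2 : Gd v h = s v • ((s v)⁻¹ • Gd v h) := by
      rw [smul_smul, mul_inv_cancel₀ hs.ne', one_smul]
    rw [h2, h1, smul_smul]
    congr 1
    rw [hm]
    field_simp
  have hn := normsq v
  rw [hv] at hn
  have g0 : Gd v h 0 = m * G v 0 := by rw [hGd]; rfl
  have g1 : Gd v h 1 = m * G v 1 := by rw [hGd]; rfl
  have g2 : Gd v h 2 = m * G v 2 := by rw [hGd]; rfl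
  simp only [Gd0, Gd1, Gd2, G0, G1, G2] at g0 g1 g2
  have hms : m * s v ^ 2 = nXd v h / 200 := by
    rw [hm]; field_simp
  rw [hs2] at hms
  unfold nXd nX at hms
  set a := v 0
  set b := v 1
  set c := v 2
  set p := h 0
  set q := h 1
  set r := h 2
  -- `⟨v, h⟩ = 0`
  have k1 : a * p + b * q + c * r = 0 := by
    have : (a - (1 / 10) * (a * c)) * (p - (1 / 10) * (p * c + a * r))
        + (b + (1 / 10) * (b * c)) * (q + (1 / 10) * (q * c + b * r))
        + (c + (1 / 10) * (a ^ 2 - b ^ 2)) * (r + (1 / 10) * (2 * a * p - 2 * b * q))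
        = m * ((a - (1 / 10) * (a * c)) ^ 2 + (b + (1 / 10) * (b * c)) ^ 2
          + (c + (1 / 10) * (a ^ 2 - b ^ 2)) ^ 2) := by
      rw [g0, g1, g2]; ring
    linear_combination this + hms - m * hn
  -- `m = - κ ⟨X, h⟩`
  have k2 : m = -(1 / 10) * (-(a * c) * p + b * c * q + (a ^ 2 - b ^ 2) * r) := by
    linear_combination k1 - a * g0 - b * g1 - c * g2 + m * hn
  -- `|h|^2`
  have k3 : p ^ 2 + q ^ 2 + r ^ 2 = - m ^ 2
      - (1 / 10) * (-(c * p ^ 2) + c * q ^ 2 + a * p * r - b * q * r) := by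
    linear_combination p * g0 + q * g1 + r * g2 + m * k1 + m * k2
  have ha : a ^ 2 ≤ 1 := by linarith [sq_nonneg b, sq_nonneg c]
  have hb : b ^ 2 ≤ 1 := by linarith [sq_nonneg a, sq_nonneg c]
  have hc : c ^ 2 ≤ 1 := by linarith [sq_nonneg b, sq_nonneg a]
  have ha' := (sq_le_one_iff_abs_le_one a).1 ha
  have hb' := (sq_le_one_iff_abs_le_one b).1 hb
  have hc' := abs_le.1 ((sq_le_one_iff_abs_le_one c).1 hc)
  have b1 : c * p ^ 2 ≤ p ^ 2 := mul_le_of_le_one_left (sq_nonneg p) hc'.2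
  have b2 : (-c) * q ^ 2 ≤ q ^ 2 := mul_le_of_le_one_left (sq_nonneg q) (by linarith)
  have b0 : ∀ x y z : ℝ, |x| ≤ 1 → |x * y * z| ≤ (y ^ 2 + z ^ 2) := by
    intro x y z hx
    have h1 : |x * y * z| ≤ |y * z| := by
      rw [mul_assoc, abs_mul]
      exact mul_le_of_le_one_left (abs_nonneg _) hx
    have h2 : |y * z| ≤ y ^ 2 + z ^ 2 := by
      rw [abs_le]
      constructor <;> linarith [sq_nonneg (y + z), sq_nonneg (y - z), sq_nonneg y, sq_nonneg z,
        add_sq y z, sub_sq y z]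
    exact h1.trans h2
  have b3 := abs_le.1 (b0 a p r ha')
  have b4 := abs_le.1 (b0 b q r hb')
  have k4 : p ^ 2 + q ^ 2 + r ^ 2 ≤ (1 / 10) * (2 * (p ^ 2 + q ^ 2 + r ^ 2)) := by
    have := sq_nonneg m
    rw [k3]
    have k5 : - m ^ 2 - (1 / 10) * (-(c * p ^ 2) + c * q ^ 2 + a * p * r - b * q * r)
      ≤ (1 / 10) * (2 * (p ^ 2 + q ^ 2 + r ^ 2)) := by linarith [b3.1, b4.2]
    rw [k3] at k5
    exact k5
  have hp : p ^ 2 = 0 := by
    linarith [sq_nonneg p, sq_nonneg q, sq_nonneg r]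
  have hq : q ^ 2 = 0 := by
    linarith [sq_nonneg p, sq_nonneg q, sq_nonneg r]
  have hr : r ^ 2 = 0 := by
    linarith [sq_nonneg p, sq_nonneg q, sq_nonneg r]
  ext i
  fin_cases i
  · exact pow_eq_zero_iff two_ne_zero |>.1 hp
  · exact pow_eq_zero_iff two_ne_zero |>.1 hq
  · exact pow_eq_zero_iff two_ne_zero |>.1 hr

end Pool.Agent.U873.EntExp
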