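import Pool.Agent.U873.EntB

open MeasureTheory Filter Topology Manifold Metric Function
open scoped ContDiff RealInnerProductSpace

namespace Pool.Agent.U873.EntExp

/-- The sphere map. -/
noncomputable def f0 (p : S2) : S2 :=
  ⟨F p, by
    rw [mem_sphere_zero_iff_norm, norm_F_eq_one_iff]
    exact mem_sphere_zero_iff_norm.1 p.2⟩

@[simp] lemma coe_f0 (p : S2) : (f0 p : R3) = F p := rfl

lemma norm_coe (p : S2) : ‖(p : R3)‖ = 1 := mem_sphere_zero_iff_norm.1 p.2

lemma continuous_f0 : Continuous f0 :=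
  Continuous.subtype_mk ((contDiff_F 0).continuous.comp continuous_subtype_val) _

lemma injective_f0 : Injective f0 := by
  intro p q h
  apply Subtype.ext
  exact F_injOn p q (norm_coe p) (norm_coe q) (congrArg Subtype.val h)

/-- The derivative of `F` at a point of the sphere as an equivalence. -/
noncomputable def dF (v : R3) (hv : ‖v‖ = 1) : R3 ≃L[ℝ] R3 :=
  (LinearEquiv.ofInjectiveEndo (fderiv ℝ F v : R3 →ₗ[ℝ] R3) (by
    rw [injective_iff_map_eq_zero]
    intro h hh
    exact fderiv_F_injective v hv h hh)).toContinuousLinearEquiv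

lemma coe_dF (v : R3) (hv : ‖v‖ = 1) : (dF v hv : R3 →L[ℝ] R3) = fderiv ℝ F v := by
  ext h
  rfl

lemma hasStrictFDerivAt_F (v : R3) (hv : ‖v‖ = 1) :
    HasStrictFDerivAt F (dF v hv : R3 →L[ℝ] R3) v := by
  rw [coe_dF]
  exact (contDiff_F 1).contDiffAt.hasStrictFDerivAt one_ne_zero

lemma isOpenMap_f0 : IsOpenMap f0 := by
  rw [isOpenMap_iff_nhds_le]
  intro p
  rw [le_map_iff]
  intro U hU
  rw [nhds_subtype_eq_comap] at hU ⊢
  obtain ⟨W, hW, hWU⟩ := hU
  refine ⟨F '' W, ?_, ?_⟩
  · have := (hasStrictFDerivAt_F (p : R3) (norm_coe p)).map_nhds_eq_of_equiv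
    show F '' W ∈ 𝓝 (F p)
    rw [← this]
    exact image_mem_map hW
  · rintro y ⟨x, hx, hxy⟩
    have hx1 : ‖x‖ = 1 := by
      rw [← norm_F_eq_one_iff, hxy]
      exact norm_coe y
    refine ⟨⟨x, mem_sphere_zero_iff_norm.2 hx1⟩, hWU hx, ?_⟩
    apply Subtype.ext
    exact hxy

instance : PreconnectedSpace S2 := by
  rw [← isPreconnected_iff_preconnectedSpace]
  apply isPreconnected_sphere
  rw [← Module.finrank_eq_rank]
  simp

instance : Nonempty S2 := ⟨⟨EuclideanSpace.single 0 1, by simp⟩⟩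

lemma surjective_f0 : Surjective f0 := by
  rw [← Set.range_eq_univ]
  apply IsClopen.eq_univ
  · constructor
    · exact (isCompact_range continuous_f0).isClosed
    · exact isOpenMap_f0.isOpen_range
  · exact Set.range_nonempty f0

lemma bijective_f0 : Bijective f0 := ⟨injective_f0, surjective_f0⟩

noncomputable def fE : S2 ≃ S2 := Equiv.ofBijective f0 bijective_f0

noncomputable def fH : S2 ≃ₜ S2 :=
  Continuous.homeoOfEquivCompactToT2 (f := fE) continuous_f0

lemma fact3 : Fact (Module.finrank ℝ R3 = 2 + 1) := ⟨by simp⟩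

lemma contMDiff_f0 : ContMDiff (𝓡 2) (𝓡 2) ω f0 := by
  have := fact3
  have h1 : ContMDiff (𝓡 2) 𝓘(ℝ, R3) ω (fun p : S2 => F p) :=
    (contDiff_F ω).contMDiff.comp contMDiff_coe_sphere
  exact h1.codRestrict_sphere (n := 2) (fun p => (f0 p).2)

lemma contMDiff_symm : ContMDiff (𝓡 2) (𝓡 2) ω (fE.symm : S2 → S2) := by
  have := fact3
  have h1 : ContMDiff (𝓡 2) 𝓘(ℝ, R3) ω (fun q : S2 => (fE.symm q : R3)) := by
    intro q
    set p : S2 := fE.symm q with hp
    have hpq : f0 p = q := fE.apply_symm_apply q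
    have hs := hasStrictFDerivAt_F (p : R3) (norm_coe p)
    set Φ := hs.toOpenPartialHomeomorph F with hΦ
    have hsrc : (p : R3) ∈ Φ.source := hs.mem_toOpenPartialHomeomorph_source
    have htgt : (q : R3) ∈ Φ.target := by
      have := hs.image_mem_toOpenPartialHomeomorph_target
      rw [← hpq]
      exact this
    have hleft : Φ.symm (q : R3) = p := by
      rw [← hpq]
      exact Φ.left_inv hsrc
    have hsm : ContDiffAt ℝ ω Φ.symm (q : R3) := by
      apply Φ.contDiffAt_symm (f₀' := dF p (norm_coe p)) htgt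
      · rw [hleft]
        exact hs.hasFDerivAt
      · rw [hleft]
        exact (contDiff_F ω).contDiffAt
    have h2 : ContMDiffAt (𝓡 2) 𝓘(ℝ, R3) ω (fun y : S2 => Φ.symm (y : R3)) q :=
      ContMDiffAt.comp q (hsm.contMDiffAt) (contMDiff_coe_sphere.contMDiffAt)
    refine h2.congr_of_eventuallyEq ?_
    have hcont : Tendsto (fun y : S2 => (fE.symm y : R3)) (𝓝 q) (𝓝 (p : R3)) := by
      have : Continuous (fun y : S2 => ((fH.symm y : S2) : R3)) :=
        continuous_subtype_val.comp fH.symm.continuous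
      exact this.tendsto q
    have hev := hcont.eventually (Φ.open_source.mem_nhds hsrc)
    filter_upwards [hev] with y hy
    have h4 : Φ.symm (F (fE.symm y : R3)) = fE.symm y := Φ.left_inv hy
    have h3 : f0 (fE.symm y) = y := fE.apply_symm_apply y
    have h5 : F (fE.symm y : R3) = y := congrArg Subtype.val h3
    rw [h5] at h4
    exact h4.symm
  exact h1.codRestrict_sphere (n := 2) (fun q => (fE.symm q).2)

/-- The analytic diffeomorphism of the two-sphere. -/
noncomputable def fD : S2 ≃ₘ^ω⟮𝓡 2, 𝓡 2⟯ S2 where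
  toEquiv := fE
  contMDiff_toFun := contMDiff_f0
  contMDiff_invFun := contMDiff_symm

end Pool.Agent.U873.EntExp
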