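import Pool.Agent.U873.EntC

open MeasureTheory Filter Topology Manifold Metric Function
open scoped ContDiff RealInnerProductSpace

namespace Pool.Agent.U873.EntExp

/-! ### invariant measures live on the fixed points -/

/-- the six fixed points -/
def Z : Set S2 := {p | nX p = 0}

lemma f0_of_mem_Z {p : S2} (hp : p ∈ Z) : f0 p = p := by
  have hp' : nX p = 0 := hp
  apply Subtype.ext
  rw [coe_f0]
  have hs : s p = 1 := by
    unfold s; rw [hp']; simp
  have hX : X p = 0 := by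
    have := normsq_X (p : R3)
    rw [hp'] at this
    exact norm_eq_zero.1 (pow_eq_zero_iff two_ne_zero |>.1 this)
  simp [F, G, hs, hX]

lemma normsq_S2 (p : S2) : (p : R3) 0 ^ 2 + (p : R3) 1 ^ 2 + (p : R3) 2 ^ 2 = 1 := by
  have := normsq (p : R3)
  rw [norm_coe] at this
  linarith

lemma mem_Z_iff (p : S2) : p ∈ Z ↔ ((p : R3) 0 = 0 ∧ (p : R3) 1 = 0) ∨
    ((p : R3) 2 = 0 ∧ (p : R3) 0 ^ 2 = (p : R3) 1 ^ 2) := by
  have hn := normsq_S2 p
  show nX p = 0 ↔ _
  unfold nX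
  set a := (p : R3) 0
  set b := (p : R3) 1
  set c := (p : R3) 2
  constructor
  · intro h
    have h1 : (a * c) ^ 2 = 0 := by
      linarith [sq_nonneg (a * c), sq_nonneg (b * c), sq_nonneg (a ^ 2 - b ^ 2)]
    have h2 : (b * c) ^ 2 = 0 := by
      linarith [sq_nonneg (a * c), sq_nonneg (b * c), sq_nonneg (a ^ 2 - b ^ 2)]
    have h3 : (a ^ 2 - b ^ 2) ^ 2 = 0 := by
      linarith [sq_nonneg (a * c), sq_nonneg (b * c), sq_nonneg (a ^ 2 - b ^ 2)]
    have h1' : a * c = 0 := pow_eq_zero_iff two_ne_zero |>.1 h1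
    have h2' : b * c = 0 := pow_eq_zero_iff two_ne_zero |>.1 h2
    have h3' : a ^ 2 - b ^ 2 = 0 := pow_eq_zero_iff two_ne_zero |>.1 h3
    rcases mul_eq_zero.1 h1' with h4 | h4
    · rcases mul_eq_zero.1 h2' with h5 | h5
      · exact Or.inl ⟨h4, h5⟩
      · exact Or.inr ⟨h5, by linarith⟩
    · exact Or.inr ⟨h4, by linarith⟩
  · rintro (⟨h1, h2⟩ | ⟨h1, h2⟩)
    · rw [h1, h2]; ring
    · rw [h1, h2]; ring

lemma Z_finite : Z.Finite := by
  set A : Set ℝ := {0, 1, -1, √(1 / 2), -√(1 / 2)} with hA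
  have hAf : A.Finite := by
    rw [hA]; simp
  have h2 : ∀ p ∈ Z, ∀ i, (p : R3) i ∈ A := by
    intro p hp
    have hn := normsq_S2 p
    rcases (mem_Z_iff p).1 hp with ⟨h1, h2⟩ | ⟨h1, h2⟩
    · have h3 : (p : R3) 2 ^ 2 = 1 := by rw [h1, h2] at hn; linarith
      have h4 : (p : R3) 2 = 1 ∨ (p : R3) 2 = -1 := by
        rcases mul_eq_zero.1 (show ((p : R3) 2 - 1) * ((p : R3) 2 + 1) = 0 by linarith) with h | h
        · left; linarith
        · right; linarith
      intro i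
      fin_cases i
      · simp [hA, h1]
      · simp [hA, h2]
      · rcases h4 with h4 | h4 <;> simp [hA, h4]
    · have h3 : (p : R3) 0 ^ 2 = 1 / 2 := by rw [h1] at hn; linarith
      have h4 : (p : R3) 1 ^ 2 = 1 / 2 := by linarith
      have key : ∀ t : ℝ, t ^ 2 = 1 / 2 → t ∈ A := by
        intro t ht
        have h5 : |t| = √(1 / 2) := by
          rw [← ht, Real.sqrt_sq_eq_abs]
        rcases abs_cases t with ⟨h6, _⟩ | ⟨h6, _⟩
        · rw [h6] at h5; rw [hA, h5]; simp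
        · rw [h6] at h5
          have : t = -√(1 / 2) := by linarith
          rw [hA, this]; simp
      intro i
      fin_cases i
      · exact key _ h3
      · exact key _ h4
      · simp [hA, h1]
  have h3 : (Set.pi Set.univ (fun _ : Fin 3 => A)).Finite := Set.Finite.pi' (fun _ => hAf) |>.subset (by
    intro x hx i; exact hx i (Set.mem_univ i))
  apply Set.Finite.of_finite_image (f := fun p : S2 => fun i => (p : R3) i)
  · apply h3.subset
    rintro _ ⟨p, hp, rfl⟩ i _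
    exact h2 p hp i
  · intro p _ q _ h
    apply Subtype.ext
    ext i
    exact congrFun h i

/-- a bounded measurable function which decreases strictly along non-fixed orbits -/
noncomputable def Ps (p : S2) : ℝ := by
  classical
  exact if (p : R3) 0 = 0 then (p : R3) 2 else if (p : R3) 1 = 0 then -(p : R3) 2 else
    |(p : R3) 0 * (p : R3) 1|

lemma f0_0 (p : S2) : (f0 p : R3) 0 = (s p)⁻¹ * ((p : R3) 0 * (1 - (1 / 10) * (p : R3) 2)) := by
  simp [F]; ring_nf; tauto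

lemma f0_1 (p : S2) : (f0 p : R3) 1 = (s p)⁻¹ * ((p : R3) 1 * (1 + (1 / 10) * (p : R3) 2)) := by
  simp [F]; ring_nf; tauto

lemma f0_2 (p : S2) : (f0 p : R3) 2 = (s p)⁻¹ * ((p : R3) 2
    + (1 / 10) * ((p : R3) 0 ^ 2 - (p : R3) 1 ^ 2)) := by
  simp [F]

lemma abs_lt_of_z (p : S2) : |(p : R3) 2| ≤ 1 := by
  have := normsq_S2 p
  rw [← sq_le_one_iff_abs_le_one]
  linarith [sq_nonneg ((p : R3) 0), sq_nonneg ((p : R3) 1)]

/-- pure inequality used on the invariant great circles -/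
lemma circle_ineq (b c s : ℝ) (hb : b ≠ 0) (hbc : b ^ 2 + c ^ 2 = 1) (hs1 : 1 ≤ s)
    (hs : s ^ 2 = 1 + (1 / 100) * b ^ 2) : s⁻¹ * (c - (1 / 10) * b ^ 2) < c := by
  have hs0 : 0 < s := by linarith
  have hb2 : 0 < b ^ 2 := by positivity
  have hc : -1 ≤ c := by nlinarith [sq_nonneg b]
  have h1 : s - 1 ≤ (1 / 100) * b ^ 2 := by
    have : (s - 1) * (s + 1) = (1 / 100) * b ^ 2 := by linarith
    nlinarith
  rw [inv_mul_lt_iff₀ hs0]
  have h2 : 0 ≤ s - 1 := by linarith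
  nlinarith

lemma Ps_f0_lt (p : S2) (hp : p ∉ Z) : Ps (f0 p) < Ps p := by
  have hn := normsq_S2 p
  have hs := s_pos (p : R3)
  have hs1 := one_le_s (p : R3)
  have hs2 := s_sq (p : R3)
  have hc := abs_le.1 (abs_lt_of_z p)
  have hpn : nX p ≠ 0 := hp
  have hnx : 0 < nX p := lt_of_le_of_ne (nX_nonneg _) (Ne.symm hpn)
  have hm : 0 < 1 - (1 / 10) * (p : R3) 2 := by linarith
  have hm' : 0 < 1 + (1 / 10) * (p : R3) 2 := by linarith
  unfold Ps
  by_cases h0 : (p : R3) 0 = 0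
  · have h0' : (f0 p : R3) 0 = 0 := by rw [f0_0, h0]; ring
    rw [if_pos h0, if_pos h0', f0_2, h0]
    have hb : (p : R3) 1 ≠ 0 := by
      intro hb
      exact hp ((mem_Z_iff p).2 (Or.inl ⟨h0, hb⟩))
    have := circle_ineq ((p : R3) 1) ((p : R3) 2) (s p) hb (by rw [h0] at hn; linarith) hs1 (by
      rw [hs2]; unfold nX; rw [h0]
      rw [h0] at hn
      have : (p : R3) 2 ^ 2 = 1 - (p : R3) 1 ^ 2 := by linarith
      have e : (0 * (p : R3) 2) ^ 2 + ((p : R3) 1 * (p : R3) 2) ^ 2 + (0 ^ 2 - (p : R3) 1 ^ 2) ^ 2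
        = (p : R3) 1 ^ 2 * (p : R3) 2 ^ 2 + ((p : R3) 1 ^ 2) ^ 2 := by ring
      rw [e, this]; ring)
    calc _ = (s p)⁻¹ * ((p : R3) 2 - (1 / 10) * (p : R3) 1 ^ 2) := by ring
      _ < _ := this
  · have h0' : (f0 p : R3) 0 ≠ 0 := by
      rw [f0_0]; exact mul_ne_zero (inv_ne_zero hs.ne') (mul_ne_zero h0 hm.ne')
    rw [if_neg h0, if_neg h0']
    by_cases h1 : (p : R3) 1 = 0
    · have h1' : (f0 p : R3) 1 = 0 := by rw [f0_1, h1]; ring
      rw [if_pos h1, if_pos h1', f0_2, h1]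
      have := circle_ineq ((p : R3) 0) (-(p : R3) 2) (s p) h0
        (by rw [h1] at hn; linarith [neg_sq ((p : R3) 2)]) hs1 (by
        rw [hs2]; unfold nX; rw [h1]
        rw [h1] at hn
        have : (p : R3) 2 ^ 2 = 1 - (p : R3) 0 ^ 2 := by linarith
        have e : ((p : R3) 0 * (p : R3) 2) ^ 2 + (0 * (p : R3) 2) ^ 2 + ((p : R3) 0 ^ 2 - 0 ^ 2) ^ 2
          = (p : R3) 0 ^ 2 * (p : R3) 2 ^ 2 + ((p : R3) 0 ^ 2) ^ 2 := by ring
        rw [e, this]; ring)
      calc _ = (s p)⁻¹ * (-(p : R3) 2 - (1 / 10) * (p : R3) 0 ^ 2) := by ring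
        _ < _ := this
    · have h1' : (f0 p : R3) 1 ≠ 0 := by
        rw [f0_1]; exact mul_ne_zero (inv_ne_zero hs.ne') (mul_ne_zero h1 hm'.ne')
      rw [if_neg h1, if_neg h1', f0_0, f0_1]
      have e : (s p)⁻¹ * ((p : R3) 0 * (1 - (1 / 10) * (p : R3) 2)) *
          ((s p)⁻¹ * ((p : R3) 1 * (1 + (1 / 10) * (p : R3) 2)))
          = ((p : R3) 0 * (p : R3) 1) * ((1 - (1 / 100) * (p : R3) 2 ^ 2) / s p ^ 2) := by
        field_simp
        ring
      rw [e, abs_mul]
      have hpos : 0 < |(p : R3) 0 * (p : R3) 1| := abs_pos.2 (mul_ne_zero h0 h1)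
      have hf : |(1 - (1 / 100) * (p : R3) 2 ^ 2) / s p ^ 2| < 1 := by
        rw [abs_div, abs_of_pos (show 0 < s p ^ 2 by positivity), div_lt_one (by positivity), hs2,
          abs_lt]
        constructor
        · nlinarith [sq_nonneg ((p : R3) 2), sq_nonneg ((p : R3) 0), sq_nonneg ((p : R3) 1)]
        · nlinarith [sq_nonneg ((p : R3) 2)]
      nlinarith

lemma Ps_f0_le (p : S2) : Ps (f0 p) ≤ Ps p := by
  by_cases hp : p ∈ Z
  · rw [f0_of_mem_Z hp]
  · exact (Ps_f0_lt p hp).le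

lemma continuous_coordS (i : Fin 3) : Continuous (fun p : S2 => (p : R3) i) :=
  (contDiff_coord 0 i).continuous.comp continuous_subtype_val

lemma measurable_Ps : Measurable Ps := by
  unfold Ps
  have h0 := (continuous_coordS 0).measurable
  have h1 := (continuous_coordS 1).measurable
  have h2 := (continuous_coordS 2).measurable
  refine Measurable.ite (h0 (measurableSet_singleton 0)) h2 ?_
  refine Measurable.ite (h1 (measurableSet_singleton 0)) h2.neg ?_
  exact (h0.mul h1).norm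

lemma abs_Ps_le (p : S2) : |Ps p| ≤ 1 := by
  have hn := normsq_S2 p
  have hc := abs_lt_of_z p
  unfold Ps
  split_ifs
  · exact hc
  · rw [abs_neg]; exact hc
  · rw [abs_abs, ← sq_le_one_iff_abs_le_one]
    have h0 : (p : R3) 0 ^ 2 ≤ 1 := by linarith [sq_nonneg ((p : R3) 1), sq_nonneg ((p : R3) 2)]
    have h1 : (p : R3) 1 ^ 2 ≤ 1 := by linarith [sq_nonneg ((p : R3) 0), sq_nonneg ((p : R3) 2)]
    rw [mul_pow]
    exact mul_le_one₀ h0 (sq_nonneg _) h1

lemma ae_mem_Z (ρ : Measure S2) [IsProbabilityMeasure ρ] (h : MeasurePreserving f0 ρ ρ) :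
    ∀ᵐ p ∂ρ, p ∈ Z := by
  have hi : Integrable Ps ρ := by
    refine Integrable.of_bound measurable_Ps.aestronglyMeasurable 1 ?_
    exact Filter.Eventually.of_forall (fun p => abs_Ps_le p)
  have hi2 : Integrable (fun p => Ps (f0 p)) ρ := h.integrable_comp_of_integrable hi
  have heq : ∫ p, Ps (f0 p) ∂ρ = ∫ p, Ps p ∂ρ := by
    have := integral_map h.measurable.aemeasurable
      (f := Ps) (by rw [h.map_eq]; exact measurable_Ps.aestronglyMeasurable)
    rw [h.map_eq] at this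
    exact this.symm
  have h0 : ∫ p, (Ps p - Ps (f0 p)) ∂ρ = 0 := by
    rw [integral_sub hi hi2, heq, sub_self]
  have h1 := (integral_eq_zero_iff_of_nonneg (μ := ρ) (f := fun p => Ps p - Ps (f0 p))
    (fun p => sub_nonneg.2 (Ps_f0_le p)) (hi.sub hi2)).1 h0
  filter_upwards [h1] with p hp
  by_contra hcon
  have := Ps_f0_lt p hcon
  simp only [Pi.zero_apply] at hp
  linarith

end Pool.Agent.U873.EntExp
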