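import Mathlib

/-!
General definitions: Kolmogorov-Sinai entropy of a map with respect to a measure, Lyapunov
exponents of a diffeomorphism with respect to a Riemannian metric, Oseledets splittings and the
sum `χ₊` of the positive exponents.
-/

open MeasureTheory Filter Topology Manifold
open scoped ContDiff

namespace Pool.Agent.U873.EntExp

section Entropy

variable {X : Type*} [MeasurableSpace X]

/-- Shannon entropy of the join `⋁_{i<n} T^{-i} P`, where the finite partition `P` of `X` is
given by its labelling `P : X → Fin k`. -/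
noncomputable def blockEntropy (T : X → X) (μ : Measure X) {k : ℕ} (P : X → Fin k) (n : ℕ) : ℝ :=
  ∑ a : Fin n → Fin k, Real.negMulLog (μ.real {x | ∀ i : Fin n, P (T^[i] x) = a i})

/-- Kolmogorov-Sinai entropy of `T` with respect to the measure `μ`: the supremum over all finite
measurable partitions `P` of `lim (1/n) H(⋁_{i<n} T^{-i} P)`. -/
noncomputable def ksEntropy (T : X → X) (μ : Measure X) : EReal :=
  ⨆ (k : ℕ) (P : X → Fin k) (_ : Measurable P),
    limsup (fun n : ℕ => ((blockEntropy T μ P n / n : ℝ) : EReal)) atTop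

end Entropy

section Exponents

variable {E : Type*} [NormedAddCommGroup E] [NormedSpace ℝ E] {H : Type*} [TopologicalSpace H]
  {I : ModelWithCorners ℝ E H} {M : Type*} [TopologicalSpace M] [ChartedSpace H M]
  [IsManifold I 1 M] {r : WithTop ℕ∞}

/-- A continuous Riemannian metric on `M`. -/
abbrev RMetric (I : ModelWithCorners ℝ E H) (M : Type*) [TopologicalSpace M] [ChartedSpace H M]
    [IsManifold I 1 M] :=
  Bundle.ContinuousRiemannianMetric E (fun x : M => TangentSpace I x)

/-- Length of the tangent vector `u` at `x` for the Riemannian metric `g`. -/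
noncomputable def gNorm (g : RMetric I M) (x : M) (u : TangentSpace I x) : ℝ :=
  √(g.inner x u u)

/-- The tangent vector `u` at `x` has characteristic exponent `c` as time tends to `+∞` and to
`-∞`: `(1/n) log ‖T_x f^n u‖ → c` as `n → ±∞`. -/
def HasExponent (g : RMetric I M) (f : Diffeomorph I I M M r) (x : M) (u : TangentSpace I x)
    (c : ℝ) : Prop :=
  Tendsto (fun n : ℕ => Real.log (gNorm g (f^[n] x) (mfderiv I I (f^[n]) x u)) / n)
    atTop (𝓝 c) ∧
  Tendsto (fun n : ℕ => Real.log (gNorm g (f.symm^[n] x) (mfderiv I I (f.symm^[n]) x u)) / (-n))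
    atTop (𝓝 c)

/-- `T_x M = ⨁ V i` is the Oseledets splitting at `x`, with distinct exponents `χ i`. -/
structure IsOseledetsSplitting (g : RMetric I M) (f : Diffeomorph I I M M r) (x : M) {k : ℕ}
    (V : Fin k → Submodule ℝ (TangentSpace I x)) (χ : Fin k → ℝ) : Prop where
  injective : Function.Injective χ
  ne_bot : ∀ i, V i ≠ ⊥
  internal : DirectSum.IsInternal V
  exponent : ∀ i, ∀ u ∈ V i, u ≠ 0 → HasExponent g f x u (χ i)

/-- `c` is the sum of the positive characteristic exponents at `x`, with multiplicities. -/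
def IsChiPlus (g : RMetric I M) (f : Diffeomorph I I M M r) (x : M) (c : ℝ) : Prop :=
  ∃ (k : ℕ) (V : Fin k → Submodule ℝ (TangentSpace I x)) (χ : Fin k → ℝ),
    IsOseledetsSplitting g f x V χ ∧
      c = ∑ i, max (χ i) 0 * (Module.finrank ℝ (V i) : ℝ)

/-- `χ` is a version of `χ₊` for the measure `ρ`. -/
def IsVersion (g : RMetric I M) (f : Diffeomorph I I M M r) [MeasurableSpace M] (ρ : Measure M)
    (χ : M → ℝ) : Prop :=
  ∀ᵐ x ∂ρ, IsChiPlus g f x (χ x)

/-- For every Riemannian metric and every invariant Borel probability measure `ρ`, the function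
`χ₊` exists `ρ`-almost everywhere, and each version `χ` of it is integrable and satisfies
`h(ρ) ≤ ∫ χ dρ - c` and `h(ρ) < ∫ χ dρ`. -/
def NoEquality (f : Diffeomorph I I M M r) [MeasurableSpace M] [BorelSpace M] (c : ℝ) : Prop :=
  ∀ (g : RMetric I M) (ρ : Measure M), IsProbabilityMeasure ρ → MeasurePreserving f ρ ρ →
    (∀ᵐ x ∂ρ, ∃ b : ℝ, IsChiPlus g f x b) ∧
    ∀ χ : M → ℝ, IsVersion g f ρ χ →
      Integrable χ ρ ∧ ksEntropy f ρ ≤ ((∫ x, χ x ∂ρ - c : ℝ) : EReal) ∧
        ksEntropy f ρ < ((∫ x, χ x ∂ρ : ℝ) : EReal)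

end Exponents

end Pool.Agent.U873.EntExp
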