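import Pool.Agent.U873.EntDefs

open MeasureTheory Filter Topology

namespace Pool.Agent.U873.EntExp

variable {X : Type*} [MeasurableSpace X]

lemma blockEntropy_of_fixed (T : X → X) (μ : Measure X) (h : ∀ᵐ x ∂μ, T x = x) {k : ℕ}
    (P : X → Fin k) (n : ℕ) :
    blockEntropy T μ P (n + 1) = ∑ j : Fin k, Real.negMulLog (μ.real {x | P x = j}) := by
  have key : ∀ a : Fin (n + 1) → Fin k, μ.real {x | ∀ i : Fin (n + 1), P (T^[i] x) = a i}
      = μ.real {x | ∀ i : Fin (n + 1), P x = a i} := by
    intro a
    apply measureReal_congr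
    filter_upwards [h] with x hx
    have hit : ∀ i : ℕ, T^[i] x = x := fun i => Function.iterate_fixed hx i
    apply propext
    show (∀ i : Fin (n + 1), P (T^[i] x) = a i) ↔ (∀ i : Fin (n + 1), P x = a i)
    simp only [hit]
  unfold blockEntropy
  simp only [key]
  have hinj : Function.Injective (fun (j : Fin k) => (fun _ : Fin (n + 1) => j)) := by
    intro i j hij
    exact congrFun hij 0
  have h1 : ∑ j : Fin k, Real.negMulLog (μ.real {x | P x = j})
      = ∑ a ∈ Finset.univ.image (fun (j : Fin k) => (fun _ : Fin (n + 1) => j)),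
        Real.negMulLog (μ.real {x | ∀ i : Fin (n + 1), P x = a i}) := by
    rw [Finset.sum_image (fun i _ j _ hij => hinj hij)]
    apply Finset.sum_congr rfl
    intro j _
    congr 2
    ext x
    simp
  rw [h1]
  symm
  apply Finset.sum_subset (Finset.subset_univ _)
  intro a _ ha
  have : {x : X | ∀ i : Fin (n + 1), P x = a i} = ∅ := by
    rw [Set.eq_empty_iff_forall_notMem]
    intro x hx
    apply ha
    rw [Finset.mem_image]
    exact ⟨P x, Finset.mem_univ _, funext hx⟩
  rw [this]
  simp

lemma ksEntropy_of_fixed (T : X → X) (μ : Measure X) (h : ∀ᵐ x ∂μ, T x = x) :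
    ksEntropy T μ = 0 := by
  have hlim : ∀ (k : ℕ) (P : X → Fin k),
      limsup (fun n : ℕ => ((blockEntropy T μ P n / n : ℝ) : EReal)) atTop = 0 := by
    intro k P
    apply Tendsto.limsup_eq
    have h1 : Tendsto (fun n : ℕ => blockEntropy T μ P n / n) atTop (𝓝 0) := by
      have h2 : Tendsto (fun n : ℕ => (∑ j : Fin k, Real.negMulLog (μ.real {x | P x = j})) / n)
          atTop (𝓝 0) := tendsto_const_div_atTop_nhds_zero_nat _
      refine h2.congr' ?_
      filter_upwards [eventually_ge_atTop 1] with n hn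
      obtain ⟨m, rfl⟩ : ∃ m, n = m + 1 := ⟨n - 1, by omega⟩
      rw [blockEntropy_of_fixed T μ h P m]
    exact (continuous_coe_real_ereal.tendsto 0).comp h1
  unfold ksEntropy
  apply le_antisymm
  · apply iSup_le; intro k
    apply iSup_le; intro P
    apply iSup_le; intro _
    rw [hlim k P]
  · refine le_iSup_of_le 1 (le_iSup_of_le (fun _ => 0) (le_iSup_of_le measurable_const ?_))
    rw [hlim]

end Pool.Agent.U873.EntExp
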