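import Pool.Agent.U873.EntD
import Pool.Agent.U873.EntDefs

open MeasureTheory Filter Topology Manifold Metric Function
open scoped ContDiff RealInnerProductSpace

namespace Pool.Agent.U873.EntExp

abbrev E2 := EuclideanSpace ℝ (Fin 2)

/-- the inclusion of the sphere -/
def inc : S2 → R3 := fun p => (p : R3)

/-- derivative of the inclusion at `p` -/
noncomputable def D (p : S2) : E2 →L[ℝ] R3 := mfderiv (𝓡 2) 𝓘(ℝ, R3) inc p

/-- derivative of `h : S2 → S2` at `p` as a map of the model space -/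
noncomputable def Tm (h : S2 → S2) (p : S2) : E2 →L[ℝ] E2 := mfderiv (𝓡 2) (𝓡 2) h p

lemma contMDiff_inc (n : WithTop ℕ∞) : ContMDiff (𝓡 2) 𝓘(ℝ, R3) n inc := by
  have := fact3
  exact contMDiff_coe_sphere

lemma mdiff_inc (p : S2) : MDifferentiableAt (𝓡 2) 𝓘(ℝ, R3) inc p :=
  (contMDiff_inc 1).mdifferentiableAt one_ne_zero

lemma D_injective (p : S2) : Injective (D p) := by
  have := fact3
  exact injective_mvfderiv_subtypeVal_sphere (n := 2) p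

lemma D_range (p : S2) : (D p).range = (ℝ ∙ (p : R3))ᗮ := by
  have := fact3
  exact range_mvfderiv_subtypeVal (n := 2) p

lemma D_orth (p : S2) (u : E2) : ⟪(p : R3), D p u⟫ = 0 := by
  have h : D p u ∈ (D p).range := ⟨u, rfl⟩
  rw [D_range] at h
  exact (Submodule.mem_orthogonal_singleton_iff_inner_right).1 h

lemma exists_D_eq (p : S2) (w : R3) (h : ⟪(p : R3), w⟫ = 0) : ∃ u : E2, D p u = w := by
  have h1 : w ∈ (ℝ ∙ (p : R3))ᗮ := (Submodule.mem_orthogonal_singleton_iff_inner_right).2 h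
  rw [← D_range] at h1
  exact h1

lemma contMDiff_iter (h : S2 → S2) (hh : ContMDiff (𝓡 2) (𝓡 2) ω h) (n : ℕ) :
    ContMDiff (𝓡 2) (𝓡 2) ω (h^[n]) := by
  induction n with
  | zero => exact contMDiff_id
  | succ n ih => rw [iterate_succ]; exact ih.comp hh

lemma mdiff_iter (h : S2 → S2) (hh : ContMDiff (𝓡 2) (𝓡 2) ω h) (n : ℕ) (p : S2) :
    MDifferentiableAt (𝓡 2) (𝓡 2) (h^[n]) p :=
  (contMDiff_iter h hh n).mdifferentiableAt (by simp)

lemma F_iter_coe (n : ℕ) (p : S2) : (f0^[n] p : R3) = F^[n] p := by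
  induction n generalizing p with
  | zero => rfl
  | succ n ih => rw [iterate_succ_apply, iterate_succ_apply, ih]; rfl

lemma F_of_mem_Z {p : S2} (hp : p ∈ Z) : F (p : R3) = p :=
  congrArg Subtype.val (f0_of_mem_Z hp)

lemma D_iter {p : S2} (hp : p ∈ Z) (n : ℕ) (u : E2) :
    D p (Tm (f0^[n]) p u) = ((fderiv ℝ F (p : R3)) ^ n) (D p u) := by
  have hfix : f0^[n] p = p := iterate_fixed (f0_of_mem_Z hp) n
  have h1 : MDifferentiableAt (𝓡 2) (𝓡 2) (f0^[n]) p := mdiff_iter f0 contMDiff_f0 n p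
  have h2 : MDifferentiableAt (𝓡 2) 𝓘(ℝ, R3) inc (f0^[n] p) := mdiff_inc _
  have h3 : HasFDerivAt (F^[n]) ((fderiv ℝ F (p : R3)) ^ n) (p : R3) :=
    (differentiableAt_F (p : R3)).hasFDerivAt.iterate (F_of_mem_Z hp) n
  have h4 : HasMFDerivAt 𝓘(ℝ, R3) 𝓘(ℝ, R3) (F^[n]) (inc p) ((fderiv ℝ F (p : R3)) ^ n) :=
    h3.hasMFDerivAt
  have h5 : inc ∘ f0^[n] = F^[n] ∘ inc := by
    funext q; exact F_iter_coe n q
  have h6 : HasMFDerivAt (𝓡 2) 𝓘(ℝ, R3) (inc ∘ f0^[n]) p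
      ((mfderiv (𝓡 2) 𝓘(ℝ, R3) inc (f0^[n] p)).comp (mfderiv (𝓡 2) (𝓡 2) (f0^[n]) p)) :=
    h2.hasMFDerivAt.comp p h1.hasMFDerivAt
  have h7 : HasMFDerivAt (𝓡 2) 𝓘(ℝ, R3) (F^[n] ∘ inc) p
      (((fderiv ℝ F (p : R3)) ^ n).comp (mfderiv (𝓡 2) 𝓘(ℝ, R3) inc p)) :=
    h4.comp p (mdiff_inc p).hasMFDerivAt
  rw [h5] at h6
  have h8 := hasMFDerivAt_unique h6 h7
  have h9 : ∀ q : S2, q = p → ((mfderiv (𝓡 2) 𝓘(ℝ, R3) inc q : E2 →L[ℝ] R3)) = D p := by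
    rintro q rfl; rfl
  have h10 := congrArg (fun T : E2 →L[ℝ] R3 => T u) h8
  have h11 := h9 _ hfix
  have h12 : D p (Tm (f0^[n]) p u) = (mfderiv (𝓡 2) 𝓘(ℝ, R3) inc (f0^[n] p) : E2 →L[ℝ] R3)
        (Tm (f0^[n]) p u) :=
    (congrArg (fun T : E2 →L[ℝ] R3 => T (Tm (f0^[n]) p u)) h11).symm
  exact h12.trans h10

lemma fE_symm_of_mem_Z {p : S2} (hp : p ∈ Z) : fE.symm p = p := by
  rw [Equiv.symm_apply_eq]
  exact (f0_of_mem_Z hp).symm

lemma D_iter_symm {p : S2} (hp : p ∈ Z) (n : ℕ) (u : E2) :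
    ((fderiv ℝ F (p : R3)) ^ n) (D p (Tm (fE.symm^[n]) p u)) = D p u := by
  rw [← D_iter hp]
  congr 1
  have hfix : (fE.symm : S2 → S2)^[n] p = p := iterate_fixed (fE_symm_of_mem_Z hp) n
  have h1 : MDifferentiableAt (𝓡 2) (𝓡 2) ((fE.symm : S2 → S2)^[n]) p :=
    mdiff_iter _ contMDiff_symm n p
  have h2 : MDifferentiableAt (𝓡 2) (𝓡 2) (f0^[n]) ((fE.symm : S2 → S2)^[n] p) :=
    mdiff_iter f0 contMDiff_f0 n _
  have h3 : f0^[n] ∘ (fE.symm : S2 → S2)^[n] = id := by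
    apply LeftInverse.comp_eq_id
    apply LeftInverse.iterate
    exact fE.apply_symm_apply
  have h4 := (h2.hasMFDerivAt.comp p h1.hasMFDerivAt)
  rw [h3] at h4
  have h5 := hasMFDerivAt_unique h4 (hasMFDerivAt_id p)
  have h9 : ∀ q : S2, q = p → ((mfderiv (𝓡 2) (𝓡 2) (f0^[n]) q : E2 →L[ℝ] E2)) =
      Tm (f0^[n]) p := by
    rintro q rfl; rfl
  have h10 := congrArg (fun T : E2 →L[ℝ] E2 => T u) h5
  have h11 := h9 _ hfix
  rw [← h11]
  exact h10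

end Pool.Agent.U873.EntExp
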