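import Pool.Agent.U873.EntF

open MeasureTheory Filter Topology Manifold Metric Function
open scoped ContDiff RealInnerProductSpace

namespace Pool.Agent.U873.EntExp

noncomputable def gN (g : RMetric (𝓡 2) S2) (q : S2) (w : E2) : ℝ := gNorm g q w

/-- the inner product at `p` as a bilinear map on the model space -/
noncomputable def gB (g : RMetric (𝓡 2) S2) (q : S2) : E2 →L[ℝ] E2 →L[ℝ] ℝ := g.inner q

lemma gN_eq (g : RMetric (𝓡 2) S2) (q : S2) (w : E2) : gN g q w = √(gB g q w w) := rfl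

lemma gB_pos (g : RMetric (𝓡 2) S2) (q : S2) (w : E2) (hw : w ≠ 0) : 0 < gB g q w w :=
  g.pos q w hw

lemma gN_pos (g : RMetric (𝓡 2) S2) (q : S2) (w : E2) (hw : w ≠ 0) : 0 < gN g q w := by
  rw [gN_eq]
  exact Real.sqrt_pos.2 (gB_pos g q w hw)

lemma gN_smul (g : RMetric (𝓡 2) S2) (q : S2) (t : ℝ) (ht : 0 ≤ t) (w : E2) :
    gN g q (t • w) = t * gN g q w := by
  rw [gN_eq, gN_eq]
  rw [map_smul, map_smul]
  have : (t • (gB g q) w) w = t * (gB g q w w) := rfl
  rw [smul_eq_mul, this, ← mul_assoc, Real.sqrt_mul (mul_self_nonneg t), Real.sqrt_mul_self ht]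

lemma gN_continuous (g : RMetric (𝓡 2) S2) (q : S2) : Continuous (gN g q) := by
  have : Continuous (fun w : E2 => gB g q w w) := (gB g q).continuous.clm_apply continuous_id
  exact Real.continuous_sqrt.comp this

lemma D_ne_zero (p : S2) (w : E2) (hw : w ≠ 0) : D p w ≠ 0 := by
  intro h
  exact hw (D_injective p (by rw [h, map_zero]))

lemma gN_equiv (g : RMetric (𝓡 2) S2) (p : S2) : ∃ c C : ℝ, 0 < c ∧ 0 < C ∧
    ∀ w : E2, c * ‖D p w‖ ≤ gN g p w ∧ gN g p w ≤ C * ‖D p w‖ := by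
  set S : Set E2 := sphere (0 : E2) 1 with hS
  have hne : S.Nonempty := ⟨EuclideanSpace.single 0 1, by simp [hS]⟩
  have hcomp : IsCompact S := isCompact_sphere 0 1
  have hS0 : ∀ w ∈ S, w ≠ 0 := by
    intro w hw h0
    rw [hS, mem_sphere_zero_iff_norm, h0, norm_zero] at hw
    exact zero_ne_one hw
  set R : E2 → ℝ := fun w => gN g p w / ‖D p w‖ with hR
  have hcont : ContinuousOn R S := by
    apply ContinuousOn.div (gN_continuous g p).continuousOn
    · exact (D p).continuous.norm.continuousOn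
    · intro w hw
      exact norm_ne_zero_iff.2 (D_ne_zero p w (hS0 w hw))
  have hpos : ∀ w ∈ S, 0 < R w := by
    intro w hw
    exact div_pos (gN_pos g p w (hS0 w hw)) (norm_pos_iff.2 (D_ne_zero p w (hS0 w hw)))
  obtain ⟨w1, hw1, hmin⟩ := hcomp.exists_isMinOn hne hcont
  obtain ⟨w2, hw2, hmax⟩ := hcomp.exists_isMaxOn hne hcont
  refine ⟨R w1, R w2, hpos w1 hw1, hpos w2 hw2, ?_⟩
  intro w
  by_cases hw : w = 0
  · rw [hw, map_zero, norm_zero, mul_zero, mul_zero]
    have : gN g p 0 = 0 := by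
      have := gN_smul g p 0 le_rfl 0
      simpa using this
    rw [this]
    exact ⟨le_rfl, le_rfl⟩
  · have hwn : 0 < ‖w‖ := norm_pos_iff.2 hw
    set v : E2 := ‖w‖⁻¹ • w with hv
    have hvS : v ∈ S := by
      rw [hS, mem_sphere_zero_iff_norm, hv, norm_smul, norm_inv, norm_norm,
        inv_mul_cancel₀ hwn.ne']
    have hwv : w = ‖w‖ • v := by
      rw [hv, smul_smul, mul_inv_cancel₀ hwn.ne', one_smul]
    have h1 : gN g p w = ‖w‖ * gN g p v := by
      conv_lhs => rw [hwv]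
      exact gN_smul g p ‖w‖ hwn.le v
    have h2 : ‖D p w‖ = ‖w‖ * ‖D p v‖ := by
      conv_lhs => rw [hwv]
      rw [map_smul, norm_smul, norm_norm]
    have hDv : 0 < ‖D p v‖ := norm_pos_iff.2 (D_ne_zero p v (hS0 v hvS))
    have h3 : gN g p v = R v * ‖D p v‖ := by
      rw [hR]; field_simp
    have h4 : R w1 ≤ R v := hmin hvS
    have h5 : R v ≤ R w2 := hmax hvS
    rw [h1, h2, h3]
    constructor
    · have : R w1 * (‖w‖ * ‖D p v‖) ≤ R v * (‖w‖ * ‖D p v‖) := by
        apply mul_le_mul_of_nonneg_right h4 (by positivity)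
      linarith
    · have : R v * (‖w‖ * ‖D p v‖) ≤ R w2 * (‖w‖ * ‖D p v‖) := by
        apply mul_le_mul_of_nonneg_right h5 (by positivity)
      linarith

lemma tendsto_log_div {a : ℕ → ℝ} {c1 c2 r : ℝ} (hc1 : 0 < c1) (hr : 0 < r)
    (h1 : ∀ n, c1 * r ^ n ≤ a n) (h2 : ∀ n, a n ≤ c2 * r ^ n) :
    Tendsto (fun n : ℕ => Real.log (a n) / n) atTop (𝓝 (Real.log r)) := by
  have hc2 : 0 < c2 := by
    have h3 := h1 0
    have h4 := h2 0
    simp at h3 h4
    linarith
  have l1 : Tendsto (fun n : ℕ => Real.log c1 / n + Real.log r) atTop (𝓝 (0 + Real.log r)) :=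
    (tendsto_const_div_atTop_nhds_zero_nat _).add tendsto_const_nhds
  have l2 : Tendsto (fun n : ℕ => Real.log c2 / n + Real.log r) atTop (𝓝 (0 + Real.log r)) :=
    (tendsto_const_div_atTop_nhds_zero_nat _).add tendsto_const_nhds
  rw [zero_add] at l1 l2
  refine tendsto_of_tendsto_of_tendsto_of_le_of_le' l1 l2 ?_ ?_
  · filter_upwards [eventually_ge_atTop 1] with n hn
    have hn0 : (0 : ℝ) < n := by exact_mod_cast hn
    have hpos : 0 < c1 * r ^ n := by positivity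
    have h3 := Real.log_le_log hpos (h1 n)
    rw [Real.log_mul hc1.ne' (by positivity), Real.log_pow] at h3
    rw [le_div_iff₀ hn0, add_mul, div_mul_cancel₀ _ hn0.ne']
    linarith
  · filter_upwards [eventually_ge_atTop 1] with n hn
    have hn0 : (0 : ℝ) < n := by exact_mod_cast hn
    have hpos : 0 < a n := lt_of_lt_of_le (by positivity) (h1 n)
    have h3 := Real.log_le_log hpos (h2 n)
    rw [Real.log_mul hc2.ne' (by positivity), Real.log_pow] at h3
    rw [div_le_iff₀ hn0, add_mul, div_mul_cancel₀ _ hn0.ne']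
    linarith

lemma le_of_tendsto_log_div {a : ℕ → ℝ} {c1 r χ : ℝ} (hc1 : 0 < c1) (hr : 0 < r)
    (h1 : ∀ n, c1 * r ^ n ≤ a n)
    (h : Tendsto (fun n : ℕ => Real.log (a n) / n) atTop (𝓝 χ)) : Real.log r ≤ χ := by
  have l1 : Tendsto (fun n : ℕ => Real.log c1 / n + Real.log r) atTop (𝓝 (0 + Real.log r)) :=
    (tendsto_const_div_atTop_nhds_zero_nat _).add tendsto_const_nhds
  rw [zero_add] at l1
  refine le_of_tendsto_of_tendsto l1 h ?_
  filter_upwards [eventually_ge_atTop 1] with n hn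
  have hn0 : (0 : ℝ) < n := by exact_mod_cast hn
  have hpos : 0 < c1 * r ^ n := by positivity
  have h3 := Real.log_le_log hpos (h1 n)
  rw [Real.log_mul hc1.ne' (by positivity), Real.log_pow] at h3
  rw [le_div_iff₀ hn0, add_mul, div_mul_cancel₀ _ hn0.ne']
  linarith

lemma gN_iter (g : RMetric (𝓡 2) S2) {p : S2} (hp : p ∈ Z) (n : ℕ) (u : E2) :
    gNorm g ((fD : S2 → S2)^[n] p) (mfderiv (𝓡 2) (𝓡 2) ((fD : S2 → S2)^[n]) p u)
      = gN g p (Tm (f0^[n]) p u) := by
  have hfix : f0^[n] p = p := iterate_fixed (f0_of_mem_Z hp) n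
  have h : ∀ q : S2, q = p → ∀ w : E2, gN g q w = gN g p w := by
    rintro q rfl w; rfl
  exact h _ hfix (Tm (f0^[n]) p u)

lemma gN_iter_symm (g : RMetric (𝓡 2) S2) {p : S2} (hp : p ∈ Z) (n : ℕ) (u : E2) :
    gNorm g ((fD.symm : S2 → S2)^[n] p) (mfderiv (𝓡 2) (𝓡 2) ((fD.symm : S2 → S2)^[n]) p u)
      = gN g p (Tm (fE.symm^[n]) p u) := by
  have hfix : (fE.symm : S2 → S2)^[n] p = p := iterate_fixed (fE_symm_of_mem_Z hp) n
  have h : ∀ q : S2, q = p → ∀ w : E2, gN g q w = gN g p w := by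
    rintro q rfl w; rfl
  exact h _ hfix (Tm (fE.symm^[n]) p u)

lemma hasExponent_of (g : RMetric (𝓡 2) S2) {p : S2} (hp : p ∈ Z) (u : E2) {r c1 c2 : ℝ}
    (hr : 0 < r) (hc1 : 0 < c1)
    (h1 : ∀ n : ℕ, c1 * r ^ n ≤ ‖((fderiv ℝ F (p : R3)) ^ n) (D p u)‖ ∧
      ‖((fderiv ℝ F (p : R3)) ^ n) (D p u)‖ ≤ c2 * r ^ n)
    (h2 : ∀ n : ℕ, ∀ w : E2, ((fderiv ℝ F (p : R3)) ^ n) (D p w) = D p u →
      c1 * r⁻¹ ^ n ≤ ‖D p w‖ ∧ ‖D p w‖ ≤ c2 * r⁻¹ ^ n) :
    HasExponent g fD p u (Real.log r) := by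
  obtain ⟨c, C, hc, hC, hN⟩ := gN_equiv g p
  constructor
  · have key : Tendsto (fun n : ℕ => Real.log (gN g p (Tm (f0^[n]) p u)) / n) atTop
        (𝓝 (Real.log r)) := by
      apply tendsto_log_div (c1 := c * c1) (c2 := C * c2) (by positivity) hr
      · intro n
        have h3 := (hN (Tm (f0^[n]) p u)).1
        rw [D_iter hp] at h3
        have h4 := (h1 n).1
        calc c * c1 * r ^ n = c * (c1 * r ^ n) := by ring
          _ ≤ _ := mul_le_mul_of_nonneg_left h4 hc.le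
          _ ≤ _ := h3
      · intro n
        have h3 := (hN (Tm (f0^[n]) p u)).2
        rw [D_iter hp] at h3
        have h4 := (h1 n).2
        calc _ ≤ _ := h3
          _ ≤ _ := mul_le_mul_of_nonneg_left h4 hC.le
          _ = _ := by ring
    refine key.congr ?_
    intro n
    rw [← gN_iter g hp]
  · have key : Tendsto (fun n : ℕ => Real.log (gN g p (Tm (fE.symm^[n]) p u)) / n) atTop
        (𝓝 (Real.log r⁻¹)) := by
      apply tendsto_log_div (c1 := c * c1) (c2 := C * c2) (by positivity) (inv_pos.2 hr)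
      · intro n
        have h3 := (hN (Tm (fE.symm^[n]) p u)).1
        have h4 := (h2 n _ (D_iter_symm hp n u)).1
        calc c * c1 * r⁻¹ ^ n = c * (c1 * r⁻¹ ^ n) := by ring
          _ ≤ _ := mul_le_mul_of_nonneg_left h4 hc.le
          _ ≤ _ := h3
      · intro n
        have h3 := (hN (Tm (fE.symm^[n]) p u)).2
        have h4 := (h2 n _ (D_iter_symm hp n u)).2
        calc _ ≤ _ := h3
          _ ≤ _ := mul_le_mul_of_nonneg_left h4 hC.le
          _ = _ := by ring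
    have key2 := key.neg
    rw [Real.log_inv, neg_neg] at key2
    refine key2.congr ?_
    intro n
    rw [← gN_iter_symm g hp, div_neg]

lemma exponent_ge (g : RMetric (𝓡 2) S2) {p : S2} (hp : p ∈ Z) (u : E2) {r c1 χ : ℝ}
    (hr : 0 < r) (hc1 : 0 < c1)
    (h1 : ∀ n : ℕ, c1 * r ^ n ≤ ‖((fderiv ℝ F (p : R3)) ^ n) (D p u)‖)
    (hχ : HasExponent g fD p u χ) : Real.log r ≤ χ := by
  obtain ⟨c, C, hc, hC, hN⟩ := gN_equiv g p
  have key : Tendsto (fun n : ℕ => Real.log (gN g p (Tm (f0^[n]) p u)) / n) atTop (𝓝 χ) := by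
    refine hχ.1.congr ?_
    intro n
    rw [← gN_iter g hp]
  refine le_of_tendsto_log_div (c1 := c * c1) (by positivity) hr ?_ key
  intro n
  have h3 := (hN (Tm (f0^[n]) p u)).1
  rw [D_iter hp] at h3
  calc c * c1 * r ^ n = c * (c1 * r ^ n) := by ring
    _ ≤ _ := mul_le_mul_of_nonneg_left (h1 n) hc.le
    _ ≤ _ := h3

end Pool.Agent.U873.EntExp
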