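import Pool.Agent.U873.EntG

open MeasureTheory Filter Topology Manifold Metric Function
open scoped ContDiff RealInnerProductSpace

namespace Pool.Agent.U873.EntExp

/-! ### the linear maps at the fixed points -/

lemma fderiv_at_Z {p : S2} (hp : p ∈ Z) (h : R3) : fderiv ℝ F (p : R3) h = Gd p h := by
  have hp' : nX p = 0 := hp
  have hs : s p = 1 := by
    unfold s; rw [hp']; simp
  have hd : nXd (p : R3) h = 0 := by
    unfold nXd
    rcases (mem_Z_iff p).1 hp with ⟨h1, h2⟩ | ⟨h1, h2⟩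
    · rw [h1, h2]; ring
    · rw [h1, h2]; ring
  rw [fderiv_F_apply, hs, hd]
  simp

lemma clm_pow_succ (L : R3 →L[ℝ] R3) (n : ℕ) (w : R3) : (L ^ (n + 1)) w = L ((L ^ n) w) := by
  rw [pow_succ']; rfl

/-! #### poles -/

/-- the eigenvalues at a pole with third coordinate `c` -/
noncomputable def mu (c : ℝ) : Fin 3 → ℝ := ![1 - (1 / 10) * c, 1 + (1 / 10) * c, 1]

lemma pole_pow {p : S2} (hp : p ∈ Z) (h0 : (p : R3) 0 = 0) (h1 : (p : R3) 1 = 0) (n : ℕ)
    (w : R3) (hw : w 2 = 0) (i : Fin 3) :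
    ((fderiv ℝ F (p : R3)) ^ n) w i = mu ((p : R3) 2) i ^ n * w i := by
  induction n generalizing i with
  | zero => simp
  | succ n ih =>
    rw [clm_pow_succ, fderiv_at_Z hp]
    fin_cases i
    · show Gd _ _ 0 = _
      rw [Gd0, ih 0, h0]
      simp [mu]
      ring
    · show Gd _ _ 1 = _
      rw [Gd1, ih 1, h1]
      simp [mu]
      ring
    · show Gd _ _ 2 = _
      rw [Gd2, ih 2, h0, h1]
      simp [mu, hw]

lemma pole_coord2 {p : S2} (h0 : (p : R3) 0 = 0) (h1 : (p : R3) 1 = 0) (u : E2) :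
    (D p u) 2 = 0 := by
  have h := D_orth p u
  rw [inner3, h0, h1] at h
  have hn := normsq_S2 p
  rw [h0, h1] at hn
  have hc : (p : R3) 2 ≠ 0 := by
    intro hc; rw [hc] at hn; norm_num at hn
  have : (p : R3) 2 * (D p u) 2 = 0 := by linarith
  exact (mul_eq_zero.1 this).resolve_left hc

lemma norm_eq_of_axis (v : R3) (i : Fin 3) (h : ∀ j, j ≠ i → v j = 0) : ‖v‖ = |v i| := by
  have h1 : ‖v‖ ^ 2 = |v i| ^ 2 := by
    rw [EuclideanSpace.norm_sq_eq, Finset.sum_eq_single i]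
    · simp
    · intro j _ hj
      rw [h j hj]; simp
    · intro hi; exact absurd (Finset.mem_univ i) hi
  exact (pow_left_inj₀ (norm_nonneg _) (abs_nonneg _) two_ne_zero).1 h1

lemma mu_pos {p : S2} (i : Fin 3) : 0 < mu ((p : R3) 2) i := by
  have := abs_le.1 (abs_lt_of_z p)
  fin_cases i
  · show 0 < 1 - (1 / 10) * (p : R3) 2
    linarith
  · show 0 < 1 + (1 / 10) * (p : R3) 2
    linarith
  · exact one_pos

lemma hasExponent_axis (g : RMetric (𝓡 2) S2) {p : S2} (hp : p ∈ Z) (h0 : (p : R3) 0 = 0)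
    (h1 : (p : R3) 1 = 0) (i : Fin 3) (u : E2) (hu : u ≠ 0)
    (hui : ∀ j, j ≠ i → (D p u) j = 0) :
    HasExponent g fD p u (Real.log (mu ((p : R3) 2) i)) := by
  have hm := mu_pos (p := p) i
  have hD := D_ne_zero p u hu
  have hn : 0 < ‖D p u‖ := norm_pos_iff.2 hD
  have h2 := pole_coord2 h0 h1 u
  apply hasExponent_of g hp u hm hn (c2 := ‖D p u‖)
  · intro n
    have h3 : ‖((fderiv ℝ F (p : R3)) ^ n) (D p u)‖ = ‖D p u‖ * mu ((p : R3) 2) i ^ n := by
      rw [norm_eq_of_axis _ i, norm_eq_of_axis (D p u) i hui, pole_pow hp h0 h1 n _ h2, abs_mul,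
        abs_of_pos (by positivity), mul_comm]
      intro j hj
      rw [pole_pow hp h0 h1 n _ h2, hui j hj, mul_zero]
    rw [h3]
    exact ⟨le_rfl, le_rfl⟩
  · intro n w hw
    have hw2 := pole_coord2 h0 h1 w
    have hcomp : ∀ j, mu ((p : R3) 2) j ^ n * (D p w) j = (D p u) j := by
      intro j
      rw [← pole_pow hp h0 h1 n _ hw2, hw]
    have h3 : ‖D p w‖ = ‖D p u‖ * (mu ((p : R3) 2) i)⁻¹ ^ n := by
      rw [norm_eq_of_axis (D p w) i, norm_eq_of_axis (D p u) i hui, ← hcomp i, abs_mul,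
        abs_of_pos (show 0 < mu ((p : R3) 2) i ^ n by positivity), inv_pow]
      · field_simp
      · intro j hj
        have h4 := hcomp j
        rw [hui j hj] at h4
        have h5 : mu ((p : R3) 2) j ^ n ≠ 0 := (pow_pos (mu_pos (p := p) j) n).ne'
        exact (mul_eq_zero.1 h4).resolve_left h5
    rw [h3]
    exact ⟨le_rfl, le_rfl⟩

/-! #### the other four points -/

noncomputable def QQ (w : R3) : ℝ := 2 * w 0 ^ 2 + 2 * w 1 ^ 2 + w 2 ^ 2

lemma QQ_ge (w : R3) : ‖w‖ ^ 2 ≤ QQ w := by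
  rw [normsq]; unfold QQ
  linarith [sq_nonneg (w 0), sq_nonneg (w 1), sq_nonneg (w 2)]

lemma QQ_le (w : R3) : QQ w ≤ 2 * ‖w‖ ^ 2 := by
  rw [normsq]; unfold QQ
  linarith [sq_nonneg (w 0), sq_nonneg (w 1), sq_nonneg (w 2)]

lemma center_pow {p : S2} (hp : p ∈ Z) (h2 : (p : R3) 2 = 0)
    (h01 : (p : R3) 0 ^ 2 = (p : R3) 1 ^ 2) (n : ℕ) (w : R3) (hw : ⟪(p : R3), w⟫ = 0) :
    ⟪(p : R3), ((fderiv ℝ F (p : R3)) ^ n) w⟫ = 0 ∧
      QQ (((fderiv ℝ F (p : R3)) ^ n) w) = (51 / 50) ^ n * QQ w := by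
  have hn := normsq_S2 p
  rw [h2] at hn
  have ha : (p : R3) 0 ^ 2 = 1 / 2 := by linarith
  have hb : (p : R3) 1 ^ 2 = 1 / 2 := by linarith
  induction n with
  | zero => simpa using hw
  | succ n ih =>
    obtain ⟨ih1, ih2⟩ := ih
    rw [clm_pow_succ, fderiv_at_Z hp]
    set v := ((fderiv ℝ F (p : R3)) ^ n) w with hv
    rw [inner3] at ih1
    set a := (p : R3) 0
    set b := (p : R3) 1
    constructor
    · rw [inner3]
      simp only [Gd0, Gd1, Gd2, h2]
      linear_combination ih1 - v 2 * h2 - (1 / 10) * v 2 * ha + (1 / 10) * v 2 * hb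
    · rw [pow_succ, mul_assoc, mul_comm (51 / 50 : ℝ), ← mul_assoc, ← ih2]
      unfold QQ
      simp only [Gd0, Gd1, Gd2]
      rw [h2] at ih1 ⊢
      have e1 : a * v 0 = - (b * v 1) := by linarith
      have e2 : v 0 ^ 2 = v 1 ^ 2 := by
        have : (a * v 0) ^ 2 = (b * v 1) ^ 2 := by rw [e1]; ring
        rw [mul_pow, mul_pow, ha, hb] at this
        linarith
      have e3 : (a * v 0 - b * v 1) ^ 2 = v 0 ^ 2 + v 1 ^ 2 := by
        have : a * v 0 - b * v 1 = 2 * (a * v 0) := by linarith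
        rw [this, mul_pow, mul_pow, ha, ← e2]; ring
      linear_combination (4 / 100) * e3 + (2 / 100) * (v 2 ^ 2) * ha + (2 / 100) * (v 2 ^ 2) * hb

lemma QQ_pos (w : R3) (hw : w ≠ 0) : 0 < QQ w :=
  lt_of_lt_of_le (by have := norm_pos_iff.2 hw; positivity) (QQ_ge w)

noncomputable def rr : ℝ := √(51 / 50)

lemma rr_sq : rr ^ 2 = 51 / 50 := Real.sq_sqrt (by norm_num)

lemma rr_gt_one : 1 < rr := by
  unfold rr
  rw [Real.lt_sqrt (by norm_num)]; norm_num

lemma rr_pos : 0 < rr := lt_trans one_pos rr_gt_one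

lemma center_lower {p : S2} (hp : p ∈ Z) (h2 : (p : R3) 2 = 0)
    (h01 : (p : R3) 0 ^ 2 = (p : R3) 1 ^ 2) (n : ℕ) (w : R3) (hw : ⟪(p : R3), w⟫ = 0) :
    √(QQ w / 2) * rr ^ n ≤ ‖((fderiv ℝ F (p : R3)) ^ n) w‖ := by
  have h := (center_pow hp h2 h01 n w hw).2
  have h3 := QQ_le (((fderiv ℝ F (p : R3)) ^ n) w)
  have hQ : 0 ≤ QQ w := le_trans (sq_nonneg _) (QQ_ge w)
  have hr := rr_pos
  refine (pow_le_pow_iff_left₀ (by positivity) (norm_nonneg _) two_ne_zero).1 ?_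
  rw [mul_pow, Real.sq_sqrt (by positivity), ← pow_mul, mul_comm n 2, pow_mul, rr_sq]
  rw [h] at h3
  linarith

lemma center_upper {p : S2} (hp : p ∈ Z) (h2 : (p : R3) 2 = 0)
    (h01 : (p : R3) 0 ^ 2 = (p : R3) 1 ^ 2) (n : ℕ) (w : R3) (hw : ⟪(p : R3), w⟫ = 0) :
    ‖((fderiv ℝ F (p : R3)) ^ n) w‖ ≤ √(QQ w) * rr ^ n := by
  have h := (center_pow hp h2 h01 n w hw).2
  have h3 := QQ_ge (((fderiv ℝ F (p : R3)) ^ n) w)
  have hQ : 0 ≤ QQ w := le_trans (sq_nonneg _) (QQ_ge w)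
  have hr := rr_pos
  refine (pow_le_pow_iff_left₀ (norm_nonneg _) (by positivity) two_ne_zero).1 ?_
  rw [mul_pow, Real.sq_sqrt hQ, ← pow_mul, mul_comm n 2, pow_mul, rr_sq]
  rw [h] at h3
  linarith

lemma hasExponent_center (g : RMetric (𝓡 2) S2) {p : S2} (hp : p ∈ Z) (h2 : (p : R3) 2 = 0)
    (h01 : (p : R3) 0 ^ 2 = (p : R3) 1 ^ 2) (u : E2) (hu : u ≠ 0) :
    HasExponent g fD p u (Real.log rr) := by
  have hD := D_ne_zero p u hu
  have hQ := QQ_pos _ hD
  have hr := rr_pos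
  have ho := D_orth p u
  apply hasExponent_of g hp u rr_pos (c1 := √(QQ (D p u) / 2)) (by positivity)
    (c2 := √(QQ (D p u)))
  · intro n
    exact ⟨center_lower hp h2 h01 n _ ho, center_upper hp h2 h01 n _ ho⟩
  · intro n w hw
    have ho' := D_orth p w
    have h := (center_pow hp h2 h01 n _ ho').2
    rw [hw] at h
    have e : QQ (D p w) = QQ (D p u) * (50 / 51) ^ n := by
      rw [h]
      have : ((51 : ℝ) / 50) ^ n * (50 / 51) ^ n = 1 := by
        rw [← mul_pow]; norm_num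
      calc _ = QQ (D p w) * (((51 : ℝ) / 50) ^ n * (50 / 51) ^ n) := by rw [this, mul_one]
        _ = _ := by ring
    have hri : (rr⁻¹) ^ 2 = 50 / 51 := by
      rw [inv_pow, rr_sq]; norm_num
    have h3 := QQ_ge (D p w)
    have h4 := QQ_le (D p w)
    constructor
    · refine (pow_le_pow_iff_left₀ (by positivity) (norm_nonneg _) two_ne_zero).1 ?_
      rw [mul_pow, Real.sq_sqrt (by positivity), ← pow_mul, mul_comm n 2, pow_mul, hri]
      rw [e] at h4
      linarith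
    · refine (pow_le_pow_iff_left₀ (norm_nonneg _) (by positivity) two_ne_zero).1 ?_
      rw [mul_pow, Real.sq_sqrt hQ.le, ← pow_mul, mul_comm n 2, pow_mul, hri]
      rw [e] at h3
      linarith

end Pool.Agent.U873.EntExp
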