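import Pool.Agent.U873.EntH
import Pool.Agent.U873.EntE

open MeasureTheory Filter Topology Manifold Metric Function
open scoped ContDiff RealInnerProductSpace

namespace Pool.Agent.U873.EntExp

lemma log_rr_pos : 0 < Real.log rr := Real.log_pos rr_gt_one

/-- general lower bound for `χ₊` at a fixed point -/
lemma chi_ge (g : RMetric (𝓡 2) S2) {p : S2} (hp : p ∈ Z) (W : Submodule ℝ E2) (hW : W ≠ ⊤)
    {r : ℝ} (hr : 1 < r)
    (h : ∀ u : E2, u ∉ W → ∃ c1 : ℝ, 0 < c1 ∧
      ∀ n : ℕ, c1 * r ^ n ≤ ‖((fderiv ℝ F (p : R3)) ^ n) (D p u)‖)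
    {c : ℝ} (hc : IsChiPlus g fD p c) : Real.log r ≤ c := by
  obtain ⟨k, V, χ, hV, rfl⟩ := hc
  have htop := hV.internal.submodule_iSup_eq_top
  have hex : ∃ i, ¬ (V i ≤ W) := by
    by_contra hcon
    push Not at hcon
    apply hW
    rw [eq_top_iff]
    have : (⨆ i, V i) ≤ W := iSup_le hcon
    rw [htop] at this
    exact this
  obtain ⟨i, hi⟩ := hex
  obtain ⟨u, huV, huW⟩ := SetLike.not_le_iff_exists.1 hi
  have hu0 : u ≠ 0 := by
    rintro rfl; exact huW W.zero_mem
  obtain ⟨c1, hc1, hb⟩ := h u huW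
  have h1 : Real.log r ≤ χ i := exponent_ge g hp u (by linarith) hc1 hb (hV.exponent i u huV hu0)
  have hlr : 0 < Real.log r := Real.log_pos hr
  have h2 : (1 : ℝ) ≤ (Module.finrank ℝ (V i) : ℝ) := by
    have : FiniteDimensional ℝ (TangentSpace (𝓡 2) p) := inferInstanceAs (FiniteDimensional ℝ E2)
    have : 1 ≤ Module.finrank ℝ (V i) := by
      rw [Nat.one_le_iff_ne_zero]
      intro h0
      exact hV.ne_bot i (Submodule.finrank_eq_zero.1 h0)
    exact_mod_cast this
  calc Real.log r ≤ χ i := h1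
    _ ≤ max (χ i) 0 * (Module.finrank ℝ (V i) : ℝ) := by
      have h3 : χ i ≤ max (χ i) 0 := le_max_left _ _
      have h4 : 0 ≤ max (χ i) 0 := le_max_right _ _
      nlinarith
    _ ≤ ∑ j, max (χ j) 0 * (Module.finrank ℝ (V j) : ℝ) :=
      Finset.single_le_sum (f := fun j => max (χ j) 0 * (Module.finrank ℝ (V j) : ℝ))
        (fun j _ => mul_nonneg (le_max_right _ _) (Nat.cast_nonneg _)) (Finset.mem_univ i)

/-- linear functional `u ↦ (D p u) i` -/
noncomputable def lf (p : S2) (i : Fin 3) : E2 →ₗ[ℝ] ℝ where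
  toFun u := (D p u) i
  map_add' u v := by simp
  map_smul' t u := by simp

@[simp] lemma lf_apply (p : S2) (i : Fin 3) (u : E2) : lf p i u = (D p u) i := rfl

lemma exists_axis {p : S2} (h0 : (p : R3) 0 = 0) (h1 : (p : R3) 1 = 0) (i : Fin 3) (hi : i ≠ 2)
    (t : ℝ) : ∃ u : E2, D p u = EuclideanSpace.single i t := by
  apply exists_D_eq
  rw [inner3, h0, h1]
  have : (EuclideanSpace.single i t : R3) 2 = 0 := by
    simp [hi.symm]
  rw [this]; ring

lemma chi_ge_pole (g : RMetric (𝓡 2) S2) {p : S2} (hp : p ∈ Z) (h0 : (p : R3) 0 = 0)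
    (h1 : (p : R3) 1 = 0) {c : ℝ} (hc : IsChiPlus g fD p c) : Real.log rr ≤ c := by
  have hn := normsq_S2 p
  rw [h0, h1] at hn
  have hr : (1 : ℝ) < 11 / 10 := by norm_num
  -- the unstable coordinate
  obtain ⟨i, hi2, hmu⟩ : ∃ i : Fin 3, i ≠ 2 ∧ mu ((p : R3) 2) i = 11 / 10 := by
    have h4 : (p : R3) 2 = 1 ∨ (p : R3) 2 = -1 := by
      rcases mul_eq_zero.1 (show ((p : R3) 2 - 1) * ((p : R3) 2 + 1) = 0 by linarith) with h | h
      · left; linarith
      · right; linarith
    rcases h4 with h4 | h4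
    · refine ⟨1, by decide, ?_⟩
      rw [h4]; simp [mu]; norm_num
    · refine ⟨0, by decide, ?_⟩
      rw [h4]; simp [mu]; norm_num
  have hlog : Real.log rr ≤ Real.log (11 / 10) := by
    apply Real.log_le_log rr_pos
    unfold rr
    rw [Real.sqrt_le_left (by norm_num)]
    norm_num
  refine hlog.trans (chi_ge g hp (LinearMap.ker (lf p i)) ?_ hr ?_ hc)
  · intro htop
    obtain ⟨u, hu⟩ := exists_axis h0 h1 i hi2 1
    have : u ∈ LinearMap.ker (lf p i) := by rw [htop]; trivial
    rw [LinearMap.mem_ker, lf_apply, hu] at this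
    simp at this
  · intro u hu
    rw [LinearMap.mem_ker, lf_apply] at hu
    refine ⟨|(D p u) i|, abs_pos.2 hu, ?_⟩
    intro n
    have h3 := pole_pow hp h0 h1 n _ (pole_coord2 h0 h1 u) i
    rw [hmu] at h3
    have h4 := PiLp.norm_apply_le (((fderiv ℝ F (p : R3)) ^ n) (D p u)) i
    rw [h3, Real.norm_eq_abs, abs_mul, abs_of_pos (by positivity)] at h4
    linarith

lemma chi_ge_center (g : RMetric (𝓡 2) S2) {p : S2} (hp : p ∈ Z) (h2 : (p : R3) 2 = 0)
    (h01 : (p : R3) 0 ^ 2 = (p : R3) 1 ^ 2) {c : ℝ} (hc : IsChiPlus g fD p c) :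
    Real.log rr ≤ c := by
  refine chi_ge g hp ⊥ ?_ rr_gt_one ?_ hc
  · exact bot_ne_top
  · intro u hu
    have hu0 : u ≠ 0 := by
      rintro rfl; exact hu (Submodule.zero_mem _)
    have hQ := QQ_pos _ (D_ne_zero p u hu0)
    exact ⟨√(QQ (D p u) / 2), by positivity, fun n => center_lower hp h2 h01 n _ (D_orth p u)⟩

lemma chi_ge_Z (g : RMetric (𝓡 2) S2) {p : S2} (hp : p ∈ Z) {c : ℝ} (hc : IsChiPlus g fD p c) :
    Real.log rr ≤ c := by
  rcases (mem_Z_iff p).1 hp with ⟨h1, h2⟩ | ⟨h1, h2⟩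
  · exact chi_ge_pole g hp h1 h2 hc
  · exact chi_ge_center g hp h1 h2 hc

/-! ### existence of the Oseledets splitting at the fixed points -/

lemma exists_chi_center (g : RMetric (𝓡 2) S2) {p : S2} (hp : p ∈ Z) (h2 : (p : R3) 2 = 0)
    (h01 : (p : R3) 0 ^ 2 = (p : R3) 1 ^ 2) : ∃ c, IsChiPlus g fD p c := by
  refine ⟨_, 1, fun _ => ⊤, fun _ => Real.log rr, ?_, rfl⟩
  refine ⟨fun i j _ => Subsingleton.elim i j, ?_, ?_, ?_⟩
  · intro _
    have : Nontrivial (TangentSpace (𝓡 2) p) := inferInstanceAs (Nontrivial E2)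
    exact top_ne_bot
  · apply DirectSum.isInternal_submodule_of_iSupIndep_of_iSup_eq_top
    · exact iSupIndep_subsingleton _
    · simp
  · intro _ u _ hu
    exact hasExponent_center g hp h2 h01 u hu

/-- the two axes: `ax 0 = {u | (D p u) 1 = 0}` and `ax 1 = {u | (D p u) 0 = 0}` -/
noncomputable def ax (p : S2) (i : Fin 2) : Submodule ℝ E2 :=
  LinearMap.ker (lf p (if i = 0 then 1 else 0))

lemma exists_chi_pole (g : RMetric (𝓡 2) S2) {p : S2} (hp : p ∈ Z) (h0 : (p : R3) 0 = 0)
    (h1 : (p : R3) 1 = 0) : ∃ c, IsChiPlus g fD p c := by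
  have hn := normsq_S2 p
  rw [h0, h1] at hn
  have hc0 : (p : R3) 2 ≠ 0 := by
    intro hc; rw [hc] at hn; norm_num at hn
  refine ⟨_, 2, ax p, fun i => Real.log (mu ((p : R3) 2) (if i = 0 then 0 else 1)), ?_, rfl⟩
  have hu0 : ∀ u : E2, u ∈ ax p 0 ↔ (D p u) 1 = 0 := by
    intro u; simp [ax]
  have hu1 : ∀ u : E2, u ∈ ax p 1 ↔ (D p u) 0 = 0 := by
    intro u; simp [ax]
  refine ⟨?_, ?_, ?_, ?_⟩
  · intro i j hij
    have hinj := Real.log_injOn_pos (mu_pos (p := p) _) (mu_pos (p := p) _) hij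
    fin_cases i <;> fin_cases j
    · rfl
    · exfalso
      simp [mu] at hinj
      apply hc0; linarith
    · exfalso
      simp [mu] at hinj
      apply hc0; linarith
    · rfl
  · intro i hbot
    fin_cases i
    · obtain ⟨u, hu⟩ := exists_axis h0 h1 0 (by decide) 1
      have h3 : u ∈ ax p 0 := by
        rw [hu0, hu]; simp
      have h4 : u = 0 := by
        have h5 : ax p 0 = ⊥ := hbot
        rw [h5] at h3
        exact (Submodule.mem_bot ℝ).1 h3
      rw [h4, map_zero] at hu
      have := congrArg (fun v : R3 => v 0) hu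
      simp at this
    · obtain ⟨u, hu⟩ := exists_axis h0 h1 1 (by decide) 1
      have h3 : u ∈ ax p 1 := by
        rw [hu1, hu]; simp
      have h4 : u = 0 := by
        have h5 : ax p 1 = ⊥ := hbot
        rw [h5] at h3
        exact (Submodule.mem_bot ℝ).1 h3
      rw [h4, map_zero] at hu
      have := congrArg (fun v : R3 => v 1) hu
      simp at this
  · have huniv : (Set.univ : Set (Fin 2)) = {0, 1} := by
      ext i; fin_cases i <;> simp
    refine (DirectSum.isInternal_submodule_iff_isCompl (ax p) (i := 0) (j := 1) (by decide)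
      huniv).2 ?_
    constructor
    · rw [Submodule.disjoint_def]
      intro u hx hy
      rw [hu0] at hx
      rw [hu1] at hy
      apply D_injective p
      rw [map_zero]
      ext i
      fin_cases i
      · exact hy
      · exact hx
      · exact pole_coord2 h0 h1 u
    · rw [codisjoint_iff, eq_top_iff]
      intro u _
      obtain ⟨a, ha⟩ := exists_axis h0 h1 0 (by decide) ((D p u) 0)
      obtain ⟨b, hb⟩ := exists_axis h0 h1 1 (by decide) ((D p u) 1)
      have hab : u = a + b := by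
        apply D_injective p
        rw [map_add, ha, hb]
        ext i
        fin_cases i
        · simp
        · simp
        · have := pole_coord2 h0 h1 u
          simpa using this
      rw [hab]
      apply Submodule.add_mem_sup
      · rw [hu0, ha]; simp
      · rw [hu1, hb]; simp
  · intro i u hu hune
    fin_cases i
    · have h3 : (D p u) 1 = 0 := (hu0 u).1 hu
      refine hasExponent_axis g hp h0 h1 0 u hune ?_
      intro j hj
      fin_cases j
      · exact absurd rfl hj
      · exact h3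
      · exact pole_coord2 h0 h1 u
    · have h3 : (D p u) 0 = 0 := (hu1 u).1 hu
      refine hasExponent_axis g hp h0 h1 1 u hune ?_
      intro j hj
      fin_cases j
      · exact h3
      · exact absurd rfl hj
      · exact pole_coord2 h0 h1 u

lemma exists_chi_Z (g : RMetric (𝓡 2) S2) {p : S2} (hp : p ∈ Z) : ∃ c, IsChiPlus g fD p c := by
  rcases (mem_Z_iff p).1 hp with ⟨h1, h2⟩ | ⟨h1, h2⟩
  · exact exists_chi_pole g hp h1 h2
  · exact exists_chi_center g hp h1 h2

end Pool.Agent.U873.EntExp
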